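import Mathlib

set_option autoImplicit false

open scoped InnerProductSpace
open Submodule

namespace Pool.Agent.X231.FrameRep

/-- The family `f` is a frame for the Hilbert space `H`. -/
def IsFrame {ι H : Type*} [NormedAddCommGroup H] [InnerProductSpace ℂ H] (f : ι → H) : Prop :=
  ∃ A B : ℝ, 0 < A ∧ 0 < B ∧ ∀ x : H, Summable (fun k => ‖⟪x, f k⟫_ℂ‖ ^ 2) ∧
    A * ‖x‖ ^ 2 ≤ ∑' k, ‖⟪x, f k⟫_ℂ‖ ^ 2 ∧ ∑' k, ‖⟪x, f k⟫_ℂ‖ ^ 2 ≤ B * ‖x‖ ^ 2

/-- The ordering `f` (indexed by `ℕ` or `ℤ`) has a bounded representation: there is a bounded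
linear operator `T` from the span of the `f k` to `H` with `T (f k) = f (k+1)` for all `k`. -/
def HasBoundedRep {I H : Type*} [Add I] [One I] [NormedAddCommGroup H] [InnerProductSpace ℂ H]
    (f : I → H) : Prop :=
  ∃ T : Submodule.span ℂ (Set.range f) →L[ℂ] H,
    ∀ k, T ⟨f k, Submodule.subset_span ⟨k, rfl⟩⟩ = f (k + 1)

section abstract

variable {Q : Type*} {E : Type*} [NormedAddCommGroup E] [InnerProductSpace ℂ E]
variable {H : Type*} [NormedAddCommGroup H] [InnerProductSpace ℂ H]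

/-- uniqueness of the closest point -/
theorem closest {K : Submodule ℂ E} [K.HasOrthogonalProjection] {x k : E} (hk : k ∈ K)
    (h : ‖x - k‖ ≤ ‖x - K.starProjection x‖) : k = K.starProjection x := by
  have h1 : x - k = (x - K.starProjection x) + (K.starProjection x - k) := by abel
  have h2 : ⟪x - K.starProjection x, K.starProjection x - k⟫_ℂ = 0 :=
    starProjection_inner_eq_zero _ _ (K.sub_mem (starProjection_apply_mem _ _) hk)
  have h3 := norm_add_sq_eq_norm_sq_add_norm_sq_of_inner_eq_zero _ _ h2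
  rw [← h1] at h3
  have h4 : ‖K.starProjection x - k‖ = 0 := by
    nlinarith [norm_nonneg (x - k), norm_nonneg (x - K.starProjection x),
      norm_nonneg (K.starProjection x - k)]
  rw [norm_eq_zero, sub_eq_zero] at h4
  exact h4.symm

/-- distance inequality for an isometry preserving `K`. -/
theorem dist_le {K : Submodule ℂ E} [K.HasOrthogonalProjection] (J : E →ₗᵢ[ℂ] E)
    (hJ : ∀ k ∈ K, J k ∈ K) (x y : E) (χ : ℂ) (hχ : ‖χ‖ = 1) (hxy : J x = χ • y) :
    ‖y - K.starProjection y‖ ≤ ‖x - K.starProjection x‖ ∧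
    (‖x - K.starProjection x‖ ≤ ‖y - K.starProjection y‖ →
      J (x - K.starProjection x) = χ • (y - K.starProjection y)) := by
  have hχ0 : χ ≠ 0 := by
    intro h; rw [h, norm_zero] at hχ; exact zero_ne_one hχ
  have hmem : χ⁻¹ • J (K.starProjection x) ∈ K :=
    K.smul_mem _ (hJ _ (starProjection_apply_mem _ _))
  have e1 : J (x - K.starProjection x) = χ • (y - χ⁻¹ • J (K.starProjection x)) := by
    rw [map_sub, hxy, smul_sub, smul_inv_smul₀ hχ0]
  have e2 : ‖x - K.starProjection x‖ = ‖y - χ⁻¹ • J (K.starProjection x)‖ := by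
    rw [← J.norm_map, e1, norm_smul, hχ, one_mul]
  have hmin : ‖y - K.starProjection y‖ ≤ ‖y - χ⁻¹ • J (K.starProjection x)‖ := by
    rw [starProjection_minimal]
    exact ciInf_le ⟨0, by rintro _ ⟨z, rfl⟩; exact norm_nonneg _⟩
      (⟨χ⁻¹ • J (K.starProjection x), hmem⟩ : K)
  refine ⟨by rw [e2]; exact hmin, fun h => ?_⟩
  rw [e2] at h
  have := closest hmem h
  rw [e1, ← this]

end abstract

section main

variable {Q : Type*}
variable {H : Type*} [NormedAddCommGroup H] [InnerProductSpace ℂ H] [CompleteSpace H]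

/-- square summable sequences -/
noncomputable abbrev L2Q (Q : Type*) := lp (fun _ : Q => ℂ) 2

/-- standard basis -/
noncomputable def bas (Q : Type*) : HilbertBasis Q ℂ (L2Q Q) :=
  HilbertBasis.ofRepr (LinearIsometryEquiv.refl ℂ _)

theorem bas_apply [DecidableEq Q] (q : Q) : bas Q q = lp.single 2 q 1 := by
  rw [← HilbertBasis.repr_symm_single]
  rfl

theorem exists_synthesis (f : Q → H) (hf : IsFrame f) :
    ∃ (U : L2Q Q →L[ℂ] H) (α : ℝ), 0 < α ∧ (∀ q, U (bas Q q) = f q) ∧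
      ∀ c ∈ (U.ker)ᗮ, α * ‖c‖ ≤ ‖U c‖ := by
  classical
  obtain ⟨A, B, hA, hB, h⟩ := hf
  have hnorm : ∀ x k, ‖⟪f k, x⟫_ℂ‖ = ‖⟪x, f k⟫_ℂ‖ := fun x k => norm_inner_symm _ _
  have hmem : ∀ x : H, Memℓp (fun k => ⟪f k, x⟫_ℂ) 2 := by
    intro x
    apply memℓp_gen
    have : ∀ k, ‖⟪f k, x⟫_ℂ‖ ^ (2 : ENNReal).toReal = ‖⟪x, f k⟫_ℂ‖ ^ 2 := by
      intro k
      rw [hnorm]
      norm_cast
    simp only [this]
    exact (h x).1
  have hnsq : ∀ x : H, ‖(⟨fun k => ⟪f k, x⟫_ℂ, hmem x⟩ : L2Q Q)‖ ^ 2 = ∑' k, ‖⟪x, f k⟫_ℂ‖ ^ 2 := by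
    intro x
    have h2 : (0 : ℝ) < (2 : ENNReal).toReal := by norm_num
    have := lp.norm_rpow_eq_tsum h2 (⟨fun k => ⟪f k, x⟫_ℂ, hmem x⟩ : L2Q Q)
    have e2 : (2 : ENNReal).toReal = ((2 : ℕ) : ℝ) := by norm_num
    rw [e2, Real.rpow_natCast] at this
    rw [this]
    apply tsum_congr
    intro k
    rw [Real.rpow_natCast]
    show ‖⟪f k, x⟫_ℂ‖ ^ 2 = _
    rw [hnorm]
  let C0 : H →ₗ[ℂ] L2Q Q :=
    { toFun := fun x => ⟨fun k => ⟪f k, x⟫_ℂ, hmem x⟩
      map_add' := by
        intro x y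
        apply Subtype.ext
        funext k
        exact inner_add_right _ _ _
      map_smul' := by
        intro a x
        apply Subtype.ext
        funext k
        exact inner_smul_right _ _ _ }
  let C : H →L[ℂ] L2Q Q := C0.mkContinuous (Real.sqrt B) (by
    intro x
    have h1 : ‖C0 x‖ ^ 2 ≤ (Real.sqrt B * ‖x‖) ^ 2 := by
      rw [mul_pow, Real.sq_sqrt hB.le]
      exact (hnsq x).trans_le (h x).2.2
    exact le_of_sq_le_sq h1 (by positivity))
  have hC : ∀ x k, (C x : Q → ℂ) k = ⟪f k, x⟫_ℂ := fun x k => rfl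
  refine ⟨C.adjoint, Real.sqrt A, Real.sqrt_pos.mpr hA, ?_, ?_⟩
  · intro q
    apply ext_inner_right ℂ
    intro x
    rw [ContinuousLinearMap.adjoint_inner_left, bas_apply, lp.inner_single_left, hC]
    simp
  · intro c hc
    rw [ContinuousLinearMap.orthogonal_ker, ContinuousLinearMap.adjoint_adjoint] at hc
    have hc' : c ∈ closure ((C.range : Submodule ℂ (L2Q Q)) : Set (L2Q Q)) := hc
    have hcl : IsClosed {c : L2Q Q | Real.sqrt A * ‖c‖ ≤ ‖C.adjoint c‖} :=
      isClosed_le (by fun_prop) (by fun_prop)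
    refine hcl.closure_subset_iff.mpr ?_ hc'
    rintro _ ⟨x, rfl⟩
    show Real.sqrt A * ‖C x‖ ≤ ‖C.adjoint (C x)‖
    have h1 : ‖C x‖ ^ 2 ≤ ‖x‖ * ‖C.adjoint (C x)‖ := by
      have e : ‖C x‖ ^ 2 = RCLike.re ⟪x, C.adjoint (C x)⟫_ℂ := by
        rw [ContinuousLinearMap.adjoint_inner_right, inner_self_eq_norm_sq]
      rw [e]
      exact re_inner_le_norm _ _
    have h2 : (Real.sqrt A * ‖x‖) ^ 2 ≤ ‖C x‖ ^ 2 := by
      rw [mul_pow, Real.sq_sqrt hA.le]
      exact (h x).2.1.trans_eq (hnsq x).symm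
    have h3 : Real.sqrt A * ‖x‖ ≤ ‖C x‖ := le_of_sq_le_sq h2 (norm_nonneg _)
    by_cases h0 : ‖C x‖ = 0
    · rw [h0, mul_zero]; exact norm_nonneg _
    have hpos : 0 < ‖C x‖ := lt_of_le_of_ne (norm_nonneg _) (Ne.symm h0)
    have h4 : ‖C x‖ * (Real.sqrt A * ‖C x‖) ≤ ‖C x‖ * ‖C.adjoint (C x)‖ := by
      calc ‖C x‖ * (Real.sqrt A * ‖C x‖) = Real.sqrt A * ‖C x‖ ^ 2 := by ring
        _ ≤ Real.sqrt A * (‖x‖ * ‖C.adjoint (C x)‖) := by gcongr
        _ = (Real.sqrt A * ‖x‖) * ‖C.adjoint (C x)‖ := by ring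
        _ ≤ ‖C x‖ * ‖C.adjoint (C x)‖ := by gcongr
    exact le_of_mul_le_mul_left h4 hpos

/-- the isometry sending the standard basis to the orthonormal family `v` -/
noncomputable def iso {v : Q → L2Q Q} (hv : Orthonormal ℂ v) : L2Q Q →ₗᵢ[ℂ] L2Q Q :=
  hv.orthogonalFamily.linearIsometry

theorem iso_bas {v : Q → L2Q Q} (hv : Orthonormal ℂ v) (q : Q) : iso hv (bas Q q) = v q := by
  classical
  rw [bas_apply, iso, OrthogonalFamily.linearIsometry_apply_single]
  simp

theorem dense_bas : Dense ((span ℂ (Set.range (bas Q)) : Submodule ℂ (L2Q Q)) : Set (L2Q Q)) := by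
  rw [Submodule.dense_iff_topologicalClosure_eq_top]
  exact (bas Q).dense_span

theorem bound_R {f : Q → H} (U : L2Q Q →L[ℂ] H) (hU : ∀ q, U (bas Q q) = f q) (τ : Q → Q)
    (M : ℝ) (hM : ∀ c : Q →₀ ℂ, ‖Finsupp.linearCombination ℂ (f ∘ τ) c‖ ≤
      M * ‖Finsupp.linearCombination ℂ f c‖)
    (R : L2Q Q →ₗᵢ[ℂ] L2Q Q) (hR : ∀ q, R (bas Q q) = bas Q (τ q)) (c : L2Q Q) :
    ‖U (R c)‖ ≤ M * ‖U c‖ := by
  have hcl : IsClosed {c : L2Q Q | ‖U (R c)‖ ≤ M * ‖U c‖} :=
    isClosed_le (by fun_prop) (by fun_prop)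
  refine hcl.closure_subset_iff.mpr ?_ (dense_bas c)
  intro c hc
  obtain ⟨a, rfl⟩ := (Finsupp.mem_span_range_iff_exists_finsupp).1 hc
  have e1 : U (a.sum fun i b => b • bas Q i) = Finsupp.linearCombination ℂ f a := by
    rw [map_finsuppSum, Finsupp.linearCombination_apply]
    simp only [map_smul, hU]
  have e2 : U (R (a.sum fun i b => b • bas Q i)) = Finsupp.linearCombination ℂ (f ∘ τ) a := by
    rw [map_finsuppSum, map_finsuppSum, Finsupp.linearCombination_apply]
    simp only [map_smul, hR, hU, Function.comp_apply]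
  show ‖U (R _)‖ ≤ M * ‖U _‖
  rw [e1, e2]
  exact hM a

theorem comm_V {f : Q → H} (U : L2Q Q →L[ℂ] H) (hU : ∀ q, U (bas Q q) = f q) (τ : Q → Q)
    (W : H →ₗᵢ[ℂ] H) (χ : Q → ℂ) (hW : ∀ q, W (f q) = χ q • f (τ q))
    (V : L2Q Q →ₗᵢ[ℂ] L2Q Q) (hV : ∀ q, V (bas Q q) = χ q • bas Q (τ q)) (c : L2Q Q) :
    U (V c) = W (U c) := by
  have : U.comp V.toContinuousLinearMap = W.toContinuousLinearMap.comp U := by
    apply ContinuousLinearMap.ext_on dense_bas
    rintro _ ⟨q, rfl⟩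
    simp only [ContinuousLinearMap.comp_apply, LinearIsometry.coe_toContinuousLinearMap, hV, hU,
      hW, map_smul]
  exact DFunLike.congr_fun this c

theorem structure_thm {f : ℤ × ℤ → H} (hf0 : ∀ q, f q ≠ 0) (U : L2Q (ℤ × ℤ) →L[ℂ] H)
    (hU : ∀ q, U (bas (ℤ × ℤ) q) = f q)
    (hcov : ∀ p : ℤ × ℤ, ∃ (W : H →ₗᵢ[ℂ] H) (χ : ℤ × ℤ → ℂ), (∀ q, ‖χ q‖ = 1) ∧
      ∀ q, W (f q) = χ q • f (q + p))
    (τ : ℤ × ℤ → ℤ × ℤ) (hτ : Function.Injective τ)
    (M : ℝ) (hM : ∀ c : (ℤ × ℤ) →₀ ℂ, ‖Finsupp.linearCombination ℂ (f ∘ τ) c‖ ≤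
      M * ‖Finsupp.linearCombination ℂ f c‖) :
    ∃ F : ℤ × ℤ → ℝ, (∀ v, 0 ≤ F v) ∧ (∀ v, F (-v) = F v) ∧ (∀ t, 0 < t → {v | t ≤ F v}.Finite) ∧
      (∀ q r, F (τ r - τ q) = F (r - q)) ∧ ((∀ v, v ≠ 0 → F v = 0) → ∀ c, U c = 0 → c = 0) := by
  let K : Submodule ℂ (L2Q (ℤ × ℤ)) := U.ker
  have hKc : IsClosed (K : Set (L2Q (ℤ × ℤ))) := U.isClosed_ker
  have : CompleteSpace K := hKc.completeSpace_coe
  let b := bas (ℤ × ℤ)
  let p : ℤ × ℤ → L2Q (ℤ × ℤ) := fun q => b q - K.starProjection (b q)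
  have hp : ∀ q, p q = b q - K.starProjection (b q) := fun q => rfl
  -- the twisted shifts
  have hV : ∀ s : ℤ × ℤ, ∃ (V : L2Q (ℤ × ℤ) →ₗᵢ[ℂ] L2Q (ℤ × ℤ)) (χ : ℤ × ℤ → ℂ),
      (∀ q, ‖χ q‖ = 1) ∧ (∀ q, V (b q) = χ q • b (q + s)) ∧ ∀ k ∈ K, V k ∈ K := by
    intro s
    obtain ⟨W, χ, hχ, hW⟩ := hcov s
    have ho : Orthonormal ℂ (fun q => χ q • b (q + s)) := by
      constructor
      · intro q
        rw [norm_smul, hχ, one_mul]
        exact (bas (ℤ × ℤ)).orthonormal.1 _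
      · intro q r hqr
        rw [inner_smul_left, inner_smul_right,
          (bas (ℤ × ℤ)).orthonormal.2 (fun h => hqr (add_right_cancel h)), mul_zero, mul_zero]
    refine ⟨iso ho, χ, hχ, fun q => iso_bas ho q, fun k hk => ?_⟩
    have hk' : U k = 0 := hk
    show U (iso ho k) = 0
    rw [comm_V U hU (fun q => q + s) W χ hW (iso ho) (fun q => iso_bas ho q), hk', map_zero]
  have hle : ∀ q s, ‖p (q + s)‖ ≤ ‖p q‖ := by
    intro q s
    obtain ⟨V, χ, hχ, hVb, hVK⟩ := hV s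
    exact (dist_le V hVK (b q) (b (q + s)) (χ q) (hχ q) (hVb q)).1
  have heq : ∀ q r, ‖p q‖ = ‖p r‖ := by
    intro q r
    apply le_antisymm
    · have := hle r (q - r)
      rwa [add_sub_cancel] at this
    · have := hle q (r - q)
      rwa [add_sub_cancel] at this
  have hVp : ∀ s : ℤ × ℤ, ∃ (V : L2Q (ℤ × ℤ) →ₗᵢ[ℂ] L2Q (ℤ × ℤ)) (χ : ℤ × ℤ → ℂ),
      (∀ q, ‖χ q‖ = 1) ∧ (∀ q, V (p q) = χ q • p (q + s)) := by
    intro s
    obtain ⟨V, χ, hχ, hVb, hVK⟩ := hV s
    exact ⟨V, χ, hχ, fun q => (dist_le V hVK (b q) (b (q + s)) (χ q) (hχ q) (hVb q)).2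
      (heq _ _).le⟩
  have hR : ∃ R : L2Q (ℤ × ℤ) →ₗᵢ[ℂ] L2Q (ℤ × ℤ), ∀ q, R (p q) = p (τ q) := by
    have ho : Orthonormal ℂ (fun q => b (τ q)) := (bas (ℤ × ℤ)).orthonormal.comp τ hτ
    have hRK : ∀ k ∈ K, iso ho k ∈ K := by
      intro k hk
      have hk' : U k = 0 := hk
      show U (iso ho k) = 0
      have := bound_R U hU τ M hM (iso ho) (fun q => iso_bas ho q) k
      rw [hk', norm_zero, mul_zero] at this
      exact norm_le_zero_iff.mp this
    refine ⟨iso ho, fun q => ?_⟩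
    have := (dist_le (iso ho) hRK (b q) (b (τ q)) 1 norm_one
      (by rw [one_smul]; exact iso_bas ho q)).2 (heq _ _).le
    rw [one_smul] at this
    exact this
  have hF1 : ∀ q r, ‖⟪p q, p r⟫_ℂ‖ = ‖⟪p 0, p (r - q)⟫_ℂ‖ := by
    intro q r
    obtain ⟨V, χ, hχ, hVp⟩ := hVp (-q)
    rw [← V.inner_map_map, hVp, hVp, inner_smul_left, inner_smul_right, norm_mul, norm_mul,
      RCLike.norm_conj, hχ, hχ, one_mul, one_mul, add_neg_cancel, sub_eq_add_neg]
  have hpb : ∀ q r, ⟪p q, p r⟫_ℂ = ⟪p q, b r⟫_ℂ := by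
    intro q r
    rw [hp r, inner_sub_right, hp q,
      starProjection_inner_eq_zero _ _ (starProjection_apply_mem _ _), sub_zero]
  refine ⟨fun v => ‖⟪p 0, p v⟫_ℂ‖, fun v => norm_nonneg _, ?_, ?_, ?_, ?_⟩
  · intro v
    have := hF1 v 0
    rw [zero_sub] at this
    beta_reduce
    rw [← this, norm_inner_symm]
  · intro t ht
    have hs : Summable (fun v => ‖⟪p 0, p v⟫_ℂ‖ ^ 2) := by
      have := (bas (ℤ × ℤ)).orthonormal.inner_products_summable (p 0)
      refine this.congr (fun v => ?_)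
      rw [hpb, norm_inner_symm]
    have := hs.tendsto_cofinite_zero.eventually (gt_mem_nhds (show (0 : ℝ) < t ^ 2 by positivity))
    rw [Filter.eventually_cofinite] at this
    refine this.subset (fun v hv => ?_)
    simp only [Set.mem_ofPred_eq, not_lt] at hv ⊢
    gcongr
  · intro q r
    obtain ⟨R, hR⟩ := hR
    beta_reduce
    rw [← hF1, ← hR, ← hR, R.inner_map_map, hF1]
  · intro h0
    -- off-diagonal entries vanish
    have hoff : ∀ q r, q ≠ r → ⟪p q, b r⟫_ℂ = 0 := by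
      intro q r hqr
      rw [← hpb, ← norm_eq_zero, hF1]
      exact h0 _ (sub_ne_zero.mpr (Ne.symm hqr))
    have hpq : ∀ q, p q = ⟪b q, p q⟫_ℂ • b q := by
      intro q
      apply (bas (ℤ × ℤ)).repr.injective
      apply Subtype.ext
      funext r
      show ((bas (ℤ × ℤ)).repr (p q)) r = ((bas (ℤ × ℤ)).repr (⟪b q, p q⟫_ℂ • b q)) r
      rw [HilbertBasis.repr_apply_apply, HilbertBasis.repr_apply_apply, inner_smul_right]
      by_cases hqr : q = r
      · subst hqr
        have : ⟪(bas (ℤ × ℤ)) q, b q⟫_ℂ = 1 := by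
          rw [inner_self_eq_norm_sq_to_K, (bas (ℤ × ℤ)).orthonormal.1 q]
          simp
        rw [this, mul_one]
      · have h1 : ⟪(bas (ℤ × ℤ)) r, b q⟫_ℂ = 0 := (bas (ℤ × ℤ)).orthonormal.2 (Ne.symm hqr)
        rw [h1, mul_zero, ← inner_conj_symm]
        have := hoff q r hqr
        rw [this, map_zero]
    have hUp : ∀ q, U (p q) = f q := by
      intro q
      have : U (K.starProjection (b q)) = 0 := starProjection_apply_mem K (b q)
      rw [hp, map_sub, this, sub_zero]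
      exact hU q
    have hone : ∀ q, p q = b q := by
      intro q
      have h1 := hUp q
      rw [hpq q, map_smul] at h1
      have h2 : U (b q) = f q := hU q
      rw [h2] at h1
      have h3 : (⟪b q, p q⟫_ℂ - 1) • f q = 0 := by rw [sub_smul, h1, one_smul, sub_self]
      rcases smul_eq_zero.mp h3 with h4 | h4
      · rw [hpq q, sub_eq_zero.mp h4, one_smul]
      · exact absurd h4 (hf0 q)
    intro c hc
    apply (bas (ℤ × ℤ)).repr.injective
    apply Subtype.ext
    funext r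
    show ((bas (ℤ × ℤ)).repr c) r = ((bas (ℤ × ℤ)).repr 0) r
    rw [HilbertBasis.repr_apply_apply, map_zero]
    have h1 : ⟪p r, c⟫_ℂ = 0 := by
      rw [hp]
      exact starProjection_inner_eq_zero _ _ hc
    rw [hone r] at h1
    exact h1

end main

theorem comb (F : ℤ × ℤ → ℝ) (hF0 : ∀ v, 0 ≤ F v) (hFs : ∀ v, F (-v) = F v)
    (hfin : ∀ t, 0 < t → {v | t ≤ F v}.Finite)
    (φ : ℤ × ℤ → ℤ) (hφ : Function.Injective φ) (s : ℕ → ℤ × ℤ) (hs : ∀ n, φ (s n) = n)
    (hup : ∀ q, ∃ r, φ r = φ q + 1)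
    (hT : ∀ q r q' r', φ r - φ q = φ r' - φ q' → F (r - q) = F (r' - q')) :
    ∀ v, v ≠ 0 → F v = 0 := by
  intro p hp
  by_contra hFp
  have ht : 0 < F p := lt_of_le_of_ne (hF0 p) (Ne.symm hFp)
  set t := F p with htdef
  have hH : ∀ q r, F (r - q) = F (s (φ r - φ q).natAbs - s 0) := by
    intro q r
    rcases le_total 0 (φ r - φ q) with h | h
    · apply hT
      rw [hs, hs]
      omega
    · rw [← hFs (s _ - s 0), neg_sub]
      apply hT
      rw [hs, hs]
      omega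
  have hsinj : Function.Injective s := by
    intro m n h
    have := congrArg φ h
    rw [hs, hs] at this
    exact_mod_cast this
  have hfinN : {n : ℕ | t ≤ F (s n - s 0)}.Finite := by
    refine ((hfin t ht).preimage (f := fun n : ℕ => s n - s 0) ?_)
    intro m _ n _ h
    exact hsinj (sub_left_injective h)
  obtain ⟨M, hM⟩ := hfinN.bddAbove
  have hM' : ∀ q r, t ≤ F (r - q) → (φ r - φ q).natAbs ≤ M := by
    intro q r h
    rw [hH] at h
    exact hM h
  set D := (φ p - φ 0).natAbs with hD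
  have hFD : F (s D - s 0) = t := by
    have := hH 0 p
    rw [sub_zero] at this
    rw [← this]
  have hD0 : 0 < D := by
    rw [hD, Int.natAbs_pos, sub_ne_zero]
    exact fun h => hp (hφ h)
  have hDM : D ≤ M := hM (by show t ≤ F (s D - s 0); rw [hFD])
  let lam : ℤ × ℤ → ℤ := fun v => p.2 * v.1 - p.1 * v.2
  have hlam : ∀ u v, lam (u - v) = lam u - lam v := by
    intro u v
    simp only [lam, Prod.fst_sub, Prod.snd_sub]
    ring
  by_cases hcase : ∀ v, t ≤ F v → lam v = 0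
  · -- periodic
    have hper : ∀ q r, (φ r - φ q).natAbs = D → lam r = lam q := by
      intro q r h
      have h1 := hH q r
      rw [h, hFD] at h1
      have := hcase (r - q) h1.ge
      rw [hlam] at this
      omega
    have hup' : ∀ (n : ℕ) q, ∃ r, φ r = φ q + n := by
      intro n
      induction n with
      | zero => intro q; exact ⟨q, by simp⟩
      | succ n ih =>
        intro q
        obtain ⟨r, hr⟩ := ih q
        obtain ⟨r', hr'⟩ := hup r
        exact ⟨r', by rw [hr', hr]; push_cast; ring⟩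
    have hnat : ∀ n : ℕ, ∃ i, i < D ∧ lam (s n) = lam (s i) := by
      intro n
      induction n using Nat.strong_induction_on with
      | _ n ih =>
        by_cases h : n < D
        · exact ⟨n, h, rfl⟩
        · obtain ⟨i, hi, h2⟩ := ih (n - D) (by omega)
          refine ⟨i, hi, ?_⟩
          rw [← h2]
          apply hper
          rw [hs, hs]
          omega
    have hint : ∀ (m : ℕ) q, -(m : ℤ) ≤ φ q → ∃ i, i < D ∧ lam q = lam (s i) := by
      intro m
      induction m with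
      | zero =>
        intro q hq
        have : q = s (φ q).toNat := hφ (by rw [hs]; push_cast at hq; omega)
        rw [this]
        exact hnat _
      | succ m ih =>
        intro q hq
        obtain ⟨r, hr⟩ := hup' D q
        obtain ⟨i, hi, h2⟩ := ih r (by push_cast at hq; omega)
        refine ⟨i, hi, ?_⟩
        rw [← h2]
        apply hper
        omega
    have hall : ∀ q, |lam q| ≤ ∑ i ∈ Finset.range D, |lam (s i)| := by
      intro q
      obtain ⟨i, hi, h2⟩ := hint (φ q).natAbs q (by omega)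
      rw [h2]
      exact Finset.single_le_sum (f := fun i => |lam (s i)|) (fun _ _ => abs_nonneg _)
        (Finset.mem_range.mpr hi)
    set B := ∑ i ∈ Finset.range D, |lam (s i)| with hB
    have hB0 : 0 ≤ B := Finset.sum_nonneg (fun _ _ => abs_nonneg _)
    have h1 := hall ((B + 1) * p.2, -((B + 1) * p.1))
    have h2 : lam ((B + 1) * p.2, -((B + 1) * p.1)) = (B + 1) * (p.1 ^ 2 + p.2 ^ 2) := by
      simp only [lam]
      ring
    have h3 : 0 < p.1 ^ 2 + p.2 ^ 2 := by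
      have : p.1 ≠ 0 ∨ p.2 ≠ 0 := by
        by_contra hc
        push Not at hc
        exact hp (Prod.ext hc.1 hc.2)
      rcases this with h | h <;> positivity
    rw [h2, abs_of_pos (by positivity)] at h1
    nlinarith
  · push Not at hcase
    obtain ⟨u, hu, hlu⟩ := hcase
    have hstep : ∀ (w : ℤ × ℤ), t ≤ F w → ∀ q, |φ (q + w) - φ q| ≤ M := by
      intro w hw q
      have := hM' q (q + w) (by rw [add_sub_cancel_left]; exact hw)
      rw [Int.abs_eq_natAbs]
      exact_mod_cast this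
    have hwalk : ∀ (w : ℤ × ℤ), t ≤ F w → ∀ (n : ℕ) q, |φ (q + (n : ℤ) • w) - φ q| ≤ n * M := by
      intro w hw n
      induction n with
      | zero => intro q; simp
      | succ n ih =>
        intro q
        have h1 := ih q
        have h2 := hstep w hw (q + (n : ℤ) • w)
        have e : q + ((n + 1 : ℕ) : ℤ) • w = q + (n : ℤ) • w + w := by
          push_cast
          rw [add_smul, one_smul, add_assoc]
        rw [e]
        have h3 := abs_add_le (φ (q + (n : ℤ) • w + w) - φ (q + (n : ℤ) • w)) (φ (q + (n : ℤ) • w) - φ q)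
        rw [sub_add_sub_cancel] at h3
        push_cast
        linarith
    set n := 4 * M with hn
    let g : ℕ × ℕ → ℤ := fun x => φ ((x.1 : ℤ) • u + (x.2 : ℤ) • p)
    have hg : Set.MapsTo g (((Finset.range (n + 1)) ×ˢ (Finset.range (n + 1)) : Finset (ℕ × ℕ)) : Set (ℕ × ℕ))
        ((Finset.Icc (φ 0 - 2 * n * M) (φ 0 + 2 * n * M) : Finset ℤ) : Set ℤ) := by
      intro x hx
      simp only [Finset.coe_product, Finset.coe_range, Set.mem_prod, Set.mem_Iio] at hx
      rw [Finset.coe_Icc, Set.mem_Icc]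
      have h1 := hwalk u hu x.1 0
      have h2 := hwalk p (le_of_eq htdef) x.2 (0 + (x.1 : ℤ) • u)
      rw [zero_add] at h1 h2
      have h3 : (x.1 : ℤ) * M ≤ n * M := by
        have : (x.1 : ℤ) ≤ n := by omega
        gcongr
      have h4 : (x.2 : ℤ) * M ≤ n * M := by
        have : (x.2 : ℤ) ≤ n := by omega
        gcongr
      rw [abs_le] at h1 h2
      constructor <;> simp only [g] <;> linarith
    have hginj : Function.Injective g := by
      intro x y hxy
      have h1 := hφ hxy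
      have h2 := congrArg Prod.fst h1
      have h3 := congrArg Prod.snd h1
      simp only [Prod.fst_add, Prod.snd_add, Prod.smul_fst, Prod.smul_snd, smul_eq_mul] at h2 h3
      have h4 : ((x.1 : ℤ) - y.1) * lam u = 0 := by
        simp only [lam]
        linear_combination p.2 * h2 - p.1 * h3
      have h5 : (x.1 : ℤ) - y.1 = 0 := by
        rcases mul_eq_zero.mp h4 with h | h
        · exact h
        · exact absurd h hlu
      have h6 : (x.1 : ℤ) = y.1 := by omega
      rw [h6] at h2 h3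
      have h7 : ((x.2 : ℤ) - y.2) * p.1 = 0 := by linear_combination h2
      have h8 : ((x.2 : ℤ) - y.2) * p.2 = 0 := by linear_combination h3
      have h9 : (x.2 : ℤ) - y.2 = 0 := by
        by_contra hne
        rcases mul_eq_zero.mp h7 with h | h
        · exact hne h
        rcases mul_eq_zero.mp h8 with h' | h'
        · exact hne h'
        exact hp (Prod.ext h h')
      exact Prod.ext (by exact_mod_cast h6) (by omega)
    have hcard := Finset.card_le_card_of_injOn g hg hginj.injOn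
    rw [Finset.card_product, Finset.card_range, Int.card_Icc] at hcard
    have h1 : ((n + 1) * (n + 1) : ℤ) ≤ 4 * n * M + 1 := by
      have : (((φ 0 + 2 * n * M + 1 - (φ 0 - 2 * n * M)).toNat : ℕ) : ℤ) = 4 * n * M + 1 := by
        rw [Int.toNat_of_nonneg (by ring_nf; positivity)]
        ring
      rw [← this]
      exact_mod_cast hcard
    rw [hn] at h1
    push_cast at h1
    have hM1 : (1 : ℤ) ≤ M := by omega
    nlinarith


/-- `f` is a Riesz basis of `H`: complete, and the norm of a finite combination is comparable to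
the `ℓ²` norm of its coefficients. -/
def IsRieszBasis {ι H : Type*} [NormedAddCommGroup H] [InnerProductSpace ℂ H] (f : ι → H) : Prop :=
  (Submodule.span ℂ (Set.range f)).topologicalClosure = ⊤ ∧
    ∃ A B : ℝ, 0 < A ∧ 0 < B ∧ ∀ c : ι →₀ ℂ,
      A * ∑ k ∈ c.support, ‖c k‖ ^ 2 ≤ ‖Finsupp.linearCombination ℂ f c‖ ^ 2 ∧
        ‖Finsupp.linearCombination ℂ f c‖ ^ 2 ≤ B * ∑ k ∈ c.support, ‖c k‖ ^ 2

variable {H : Type*} [NormedAddCommGroup H] [InnerProductSpace ℂ H] [CompleteSpace H]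

theorem norm_lc {Q : Type*} (c : Q →₀ ℂ) :
    ‖c.sum fun i b => b • bas Q i‖ ^ 2 = ∑ k ∈ c.support, ‖c k‖ ^ 2 := by
  have h := (bas Q).orthonormal.inner_sum (c : Q → ℂ) (c : Q → ℂ) c.support
  have h2 : ((‖c.sum fun i b => b • bas Q i‖ ^ 2 : ℝ) : ℂ) = ((∑ k ∈ c.support, ‖c k‖ ^ 2 : ℝ) : ℂ) := by
    rw [Finsupp.sum]
    push_cast
    rw [← Complex.coe_algebraMap, ← inner_self_eq_norm_sq_to_K (𝕜 := ℂ), h]
    apply Finset.sum_congr rfl
    intro k _
    rw [RCLike.conj_mul]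
  exact_mod_cast h2

theorem riesz_of_inj {Q : Type*} {f : Q → H} (hf : IsFrame f)
    (h : ∀ U : L2Q Q →L[ℂ] H, (∀ q, U (bas Q q) = f q) → ∀ c, U c = 0 → c = 0) :
    IsRieszBasis f := by
  obtain ⟨U, α, hα, hU, hlow⟩ := exists_synthesis f hf
  have hinj := h U hU
  have hker : U.ker = ⊥ := by
    rw [eq_bot_iff]
    intro c hc
    exact hinj c hc
  refine ⟨?_, α ^ 2, (‖U‖ + 1) ^ 2, by positivity, by positivity, fun c => ?_⟩
  · rw [Submodule.topologicalClosure_eq_top_iff, eq_bot_iff]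
    intro x hx
    obtain ⟨A, B, hA, hB, hfr⟩ := hf
    have h0 : ∀ k, ⟪x, f k⟫_ℂ = 0 := fun k =>
      Submodule.inner_left_of_mem_orthogonal
        (show f k ∈ Submodule.span ℂ (Set.range f) from Submodule.subset_span ⟨k, rfl⟩) hx
    have := (hfr x).2.1
    simp only [h0, norm_zero, ne_eq, OfNat.ofNat_ne_zero, not_false_eq_true, zero_pow, tsum_zero] at this
    have hx0 : ‖x‖ ^ 2 ≤ 0 := by
      by_contra hne
      push Not at hne
      have := mul_pos hA hne
      linarith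
    have : ‖x‖ = 0 := by
      have := sq_nonneg ‖x‖
      exact pow_eq_zero_iff (two_ne_zero) |>.mp (le_antisymm hx0 this)
    exact norm_eq_zero.mp this
  · have e1 : U (c.sum fun i b => b • bas Q i) = Finsupp.linearCombination ℂ f c := by
      rw [map_finsuppSum, Finsupp.linearCombination_apply]
      simp only [map_smul, hU]
    rw [← e1, ← norm_lc]
    constructor
    · rw [← mul_pow]
      have := hlow (c.sum fun i b => b • bas Q i) (by rw [hker]; simp)
      gcongr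
    · rw [← mul_pow]
      have := U.le_opNorm (c.sum fun i b => b • bas Q i)
      gcongr
      refine this.trans ?_
      gcongr
      linarith

/-- The abstract theorem: a covariant frame on `ℤ²` whose reordering shift is bounded is a
Riesz basis. -/
theorem main_abs {f : ℤ × ℤ → H} (hf : IsFrame f) (hf0 : ∀ q, f q ≠ 0)
    (hcov : ∀ p : ℤ × ℤ, ∃ (W : H →ₗᵢ[ℂ] H) (χ : ℤ × ℤ → ℂ), (∀ q, ‖χ q‖ = 1) ∧
      ∀ q, W (f q) = χ q • f (q + p))
    (τ : ℤ × ℤ → ℤ × ℤ) (φ : ℤ × ℤ → ℤ) (hφ : Function.Injective φ) (s : ℕ → ℤ × ℤ)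
    (hs : ∀ n, φ (s n) = n) (hφτ : ∀ q, φ (τ q) = φ q + 1)
    (M : ℝ) (hM : ∀ c : (ℤ × ℤ) →₀ ℂ, ‖Finsupp.linearCombination ℂ (f ∘ τ) c‖ ≤
      M * ‖Finsupp.linearCombination ℂ f c‖) : IsRieszBasis f := by
  have hτ : Function.Injective τ := by
    intro q r h
    have := congrArg φ h
    rw [hφτ, hφτ] at this
    exact hφ (by omega)
  apply riesz_of_inj hf
  intro U hU
  obtain ⟨F, hF0, hFs, hfin, hFτ, hconc⟩ := structure_thm hf0 U hU hcov τ hτ M hM
  apply hconc
  have hiter : ∀ (n : ℕ) q, φ (τ^[n] q) = φ q + n := by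
    intro n
    induction n with
    | zero => intro q; simp
    | succ n ih =>
      intro q
      rw [Function.iterate_succ_apply', hφτ, ih]
      push_cast
      ring
  have hiterF : ∀ (n : ℕ) q r, F (τ^[n] r - τ^[n] q) = F (r - q) := by
    intro n
    induction n with
    | zero => intro q r; simp
    | succ n ih =>
      intro q r
      rw [Function.iterate_succ_apply', Function.iterate_succ_apply', hFτ, ih]
  refine comb F hF0 hFs hfin φ hφ s hs (fun q => ⟨τ q, hφτ q⟩) ?_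
  intro q r q' r' h
  rcases le_total (φ q) (φ q') with hle | hle
  · have h1 : q' = τ^[(φ q' - φ q).toNat] q := hφ (by rw [hiter]; omega)
    have h2 : r' = τ^[(φ q' - φ q).toNat] r := hφ (by rw [hiter]; omega)
    rw [h2]
    nth_rewrite 2 [h1]
    rw [hiterF]
  · have h1 : q = τ^[(φ q - φ q').toNat] q' := hφ (by rw [hiter]; omega)
    have h2 : r = τ^[(φ q - φ q').toNat] r' := hφ (by rw [hiter]; omega)
    rw [h2]
    nth_rewrite 2 [h1]
    rw [hiterF]

omit [CompleteSpace H] in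
theorem bound_of_rep {I Q : Type*} [Add I] [One I] {f : Q → H} (σ : I ≃ Q)
    (h : HasBoundedRep (fun k => f (σ k))) :
    ∃ M : ℝ, ∀ c : Q →₀ ℂ, ‖Finsupp.linearCombination ℂ (f ∘ fun q => σ (σ.symm q + 1)) c‖ ≤
      M * ‖Finsupp.linearCombination ℂ f c‖ := by
  obtain ⟨T, hT⟩ := h
  refine ⟨‖T‖, fun c => ?_⟩
  let g : Q → Submodule.span ℂ (Set.range fun k => f (σ k)) := fun q =>
    ⟨f q, Submodule.subset_span ⟨σ.symm q, by simp⟩⟩
  have hTg : ∀ q, T (g q) = f (σ (σ.symm q + 1)) := by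
    intro q
    have := hT (σ.symm q)
    beta_reduce at this
    rw [← this]
    congr 1
    apply Subtype.ext
    simp [g]
  have e1 : ((Finsupp.linearCombination ℂ g c : Submodule.span ℂ (Set.range fun k => f (σ k))) : H) =
      Finsupp.linearCombination ℂ f c := by
    rw [Finsupp.linearCombination_apply, Finsupp.linearCombination_apply, Finsupp.sum, Finsupp.sum,
      Submodule.coe_sum]
    rfl
  have e2 : T (Finsupp.linearCombination ℂ g c) =
      Finsupp.linearCombination ℂ (f ∘ fun q => σ (σ.symm q + 1)) c := by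
    rw [Finsupp.linearCombination_apply, Finsupp.linearCombination_apply, map_finsuppSum]
    simp only [map_smul, hTg, Function.comp_apply]
  rw [← e2, ← e1]
  exact T.le_opNorm _

theorem main_nat {f : ℤ × ℤ → H} (hf : IsFrame f) (hf0 : ∀ q, f q ≠ 0)
    (hcov : ∀ p : ℤ × ℤ, ∃ (W : H →ₗᵢ[ℂ] H) (χ : ℤ × ℤ → ℂ), (∀ q, ‖χ q‖ = 1) ∧
      ∀ q, W (f q) = χ q • f (q + p))
    (σ : ℕ ≃ ℤ × ℤ) (h : HasBoundedRep (fun k => f (σ k))) : IsRieszBasis f := by
  obtain ⟨M, hM⟩ := bound_of_rep σ h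
  exact main_abs hf hf0 hcov _ (fun q => (σ.symm q : ℤ))
    (fun q r h => σ.symm.injective (by beta_reduce at h; exact_mod_cast h)) (fun n => σ n) (fun n => by simp)
    (fun q => by simp) M hM

theorem main_int {f : ℤ × ℤ → H} (hf : IsFrame f) (hf0 : ∀ q, f q ≠ 0)
    (hcov : ∀ p : ℤ × ℤ, ∃ (W : H →ₗᵢ[ℂ] H) (χ : ℤ × ℤ → ℂ), (∀ q, ‖χ q‖ = 1) ∧
      ∀ q, W (f q) = χ q • f (q + p))
    (σ : ℤ ≃ ℤ × ℤ) (h : HasBoundedRep (fun k => f (σ k))) : IsRieszBasis f := by
  obtain ⟨M, hM⟩ := bound_of_rep σ h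
  exact main_abs hf hf0 hcov _ (fun q => σ.symm q) σ.symm.injective (fun n => σ n)
    (fun n => by simp) (fun q => by simp) M hM

end Pool.Agent.X231.FrameRep
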