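import Mathlib
import Pool.Agent.X231.FrameRep

set_option autoImplicit false

open scoped InnerProductSpace
open MeasureTheory Submodule

namespace Pool.Agent.X231.Gabor

open Pool.Agent.X231.FrameRep

/-- The Hilbert space `L²(ℝ)`. -/
noncomputable abbrev L2R := Lp ℂ 2 (volume : Measure ℝ)

/-- The function `x ↦ e^{2πiξx} g(x - y)`. -/
noncomputable def tfFun (ξ y : ℝ) (g : ℝ → ℂ) : ℝ → ℂ :=
  fun x => Complex.exp (2 * Real.pi * Complex.I * ξ * x) * g (x - y)

theorem norm_exp_aux (ξ x : ℝ) : ‖Complex.exp (2 * Real.pi * Complex.I * ξ * x)‖ = 1 := by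
  have : (2 * Real.pi * Complex.I * ξ * x : ℂ) = ((2 * Real.pi * ξ * x : ℝ) : ℂ) * Complex.I := by
    push_cast; ring
  rw [this, Complex.norm_exp_ofReal_mul_I]

theorem tfFun_memLp (ξ y : ℝ) (g : L2R) : MemLp (tfFun ξ y g) 2 volume := by
  have h1 : MemLp (fun x => (g : ℝ → ℂ) (x - y)) 2 volume :=
    (Lp.memLp g).comp_measurePreserving (measurePreserving_sub_right volume y)
  refine h1.congr_norm ?_ ?_
  · apply AEStronglyMeasurable.mul _ h1.1
    apply Continuous.aestronglyMeasurable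
    fun_prop
  · apply Filter.Eventually.of_forall
    intro x
    rw [tfFun, norm_mul, norm_exp_aux, one_mul]

/-- The time-frequency shift `E_ξ T_y g` on `L²(ℝ)`: the class of `x ↦ e^{2πiξx} g(x - y)`. -/
noncomputable def tf (ξ y : ℝ) (g : L2R) : L2R := (tfFun_memLp ξ y g).toLp _

/-- The Gabor system `(m,n) ↦ E_{mb} T_{na} g`. -/
noncomputable def gabor (g : L2R) (a b : ℝ) (p : ℤ × ℤ) : L2R := tf (p.1 * b) (p.2 * a) g

theorem tf_coe (ξ y : ℝ) (g : L2R) : (tf ξ y g : ℝ → ℂ) =ᵐ[volume] tfFun ξ y g :=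
  MemLp.coeFn_toLp _

theorem ae_shift {P : ℝ → Prop} (y : ℝ) (h : ∀ᵐ x ∂(volume : Measure ℝ), P x) :
    ∀ᵐ x ∂(volume : Measure ℝ), P (x - y) :=
  (measurePreserving_sub_right volume y).quasiMeasurePreserving.ae h

theorem tf_add (ξ y : ℝ) (g h : L2R) : tf ξ y (g + h) = tf ξ y g + tf ξ y h := by
  apply Lp.ext
  filter_upwards [tf_coe ξ y (g + h), tf_coe ξ y g, tf_coe ξ y h, Lp.coeFn_add (tf ξ y g) (tf ξ y h),
    ae_shift y (Lp.coeFn_add g h)] with x h1 h2 h3 h4 h5
  rw [h1, h4, Pi.add_apply, h2, h3, tfFun, h5, Pi.add_apply, tfFun, tfFun]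
  ring

theorem tf_smul (ξ y : ℝ) (c : ℂ) (g : L2R) : tf ξ y (c • g) = c • tf ξ y g := by
  apply Lp.ext
  filter_upwards [tf_coe ξ y (c • g), tf_coe ξ y g, Lp.coeFn_smul c (tf ξ y g),
    ae_shift y (Lp.coeFn_smul c g)] with x h1 h2 h3 h4
  rw [h1, h3, Pi.smul_apply, h2, tfFun, h4, Pi.smul_apply, tfFun, smul_eq_mul, smul_eq_mul]
  ring

theorem tf_norm (ξ y : ℝ) (g : L2R) : ‖tf ξ y g‖ = ‖g‖ := by
  rw [tf, Lp.norm_toLp, Lp.norm_def]
  congr 1
  have h1 : eLpNorm (tfFun ξ y g) 2 volume = eLpNorm (fun x => (g : ℝ → ℂ) (x - y)) 2 volume := by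
    apply eLpNorm_congr_norm_ae
    apply Filter.Eventually.of_forall
    intro x
    rw [tfFun, norm_mul, norm_exp_aux, one_mul]
  rw [h1]
  exact eLpNorm_comp_measurePreserving (Lp.aestronglyMeasurable g) (measurePreserving_sub_right volume y)

/-- The time-frequency shift as a linear isometry. -/
noncomputable def tfIso (ξ y : ℝ) : L2R →ₗᵢ[ℂ] L2R where
  toFun := tf ξ y
  map_add' := tf_add ξ y
  map_smul' := tf_smul ξ y
  norm_map' := tf_norm ξ y

theorem tf_tf (ξ y ξ' y' : ℝ) (g : L2R) : tf ξ y (tf ξ' y' g) =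
    Complex.exp (-(2 * Real.pi * Complex.I * ξ' * y)) • tf (ξ + ξ') (y + y') g := by
  apply Lp.ext
  filter_upwards [tf_coe ξ y (tf ξ' y' g), ae_shift y (tf_coe ξ' y' g),
    tf_coe (ξ + ξ') (y + y') g,
    Lp.coeFn_smul (Complex.exp (-(2 * Real.pi * Complex.I * ξ' * y))) (tf (ξ + ξ') (y + y') g)]
    with x h1 h2 h3 h4
  rw [h1, h4, Pi.smul_apply, h3, tfFun, h2, tfFun, tfFun, smul_eq_mul, ← mul_assoc, ← mul_assoc,
    ← Complex.exp_add, ← Complex.exp_add]
  have e : x - y - y' = x - (y + y') := by ring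
  rw [e]
  congr 2
  push_cast
  ring

theorem gabor_ne (g : L2R) (hg : g ≠ 0) (a b : ℝ) (q : ℤ × ℤ) : gabor g a b q ≠ 0 := by
  intro h
  apply hg
  rw [← norm_eq_zero, ← tf_norm (q.1 * b) (q.2 * a) g]
  rw [gabor] at h
  rw [h, norm_zero]

theorem gabor_cov (g : L2R) (a b : ℝ) (p : ℤ × ℤ) : ∃ (W : L2R →ₗᵢ[ℂ] L2R) (χ : ℤ × ℤ → ℂ),
    (∀ q, ‖χ q‖ = 1) ∧ ∀ q, W (gabor g a b q) = χ q • gabor g a b (q + p) := by
  refine ⟨tfIso (p.1 * b) (p.2 * a),
    fun q => Complex.exp (-(2 * Real.pi * Complex.I * ((q.1 * b : ℝ) : ℂ) * ((p.2 * a : ℝ) : ℂ))), ?_, ?_⟩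
  · intro q
    have : (-(2 * Real.pi * Complex.I * ((q.1 * b : ℝ) : ℂ) * ((p.2 * a : ℝ) : ℂ))) =
      ((-(2 * Real.pi * (q.1 * b) * (p.2 * a)) : ℝ) : ℂ) * Complex.I := by
      push_cast; ring
    beta_reduce
    rw [this, Complex.norm_exp_ofReal_mul_I]
  · intro q
    show tf (p.1 * b) (p.2 * a) (tf (q.1 * b) (q.2 * a) g) = _
    rw [tf_tf]
    congr 1
    show tf _ _ g = tf _ _ g
    congr 1
    · push_cast; simp; ring
    · push_cast; simp; ring

/-- Every Riesz basis has a bounded representation in every ordering. -/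
theorem rep_of_riesz {I Q H : Type*} [Add I] [One I] [IsRightCancelAdd I]
    [NormedAddCommGroup H] [InnerProductSpace ℂ H] {f : Q → H}
    (hf : IsRieszBasis f) (σ : I ≃ Q) : HasBoundedRep (fun k => f (σ k)) := by
  classical
  obtain ⟨-, A, B, hA, hB, h⟩ := hf
  have hli : LinearIndependent ℂ f := by
    rw [linearIndependent_iff]
    intro l hl
    have h1 := (h l).1
    rw [hl, norm_zero, zero_pow two_ne_zero] at h1
    have h2 : ∑ k ∈ l.support, ‖l k‖ ^ 2 ≤ 0 := by
      by_contra hne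
      push Not at hne
      have := mul_pos hA hne
      linarith
    have h3 := (Finset.sum_eq_zero_iff_of_nonneg (fun k _ => sq_nonneg ‖l k‖)).1
      (le_antisymm h2 (Finset.sum_nonneg (fun k _ => sq_nonneg ‖l k‖)))
    ext k
    by_contra hk
    have := h3 k (Finsupp.mem_support_iff.mpr hk)
    rw [sq_eq_zero_iff, norm_eq_zero] at this
    exact hk this
  have hli' : LinearIndependent ℂ (fun k => f (σ k)) := hli.comp σ σ.injective
  let bs := Module.Basis.span hli'
  let T0 : Submodule.span ℂ (Set.range fun k => f (σ k)) →ₗ[ℂ] H :=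
    bs.constr ℂ (fun k => f (σ (k + 1)))
  let τ : Q → Q := fun q => σ (σ.symm q + 1)
  have hτ : Function.Injective τ := by
    intro q r hqr
    have := σ.injective hqr
    exact σ.symm.injective (add_right_cancel this)
  have hbound : ∀ x, ‖T0 x‖ ≤ Real.sqrt (B / A) * ‖x‖ := by
    intro x
    let c : I →₀ ℂ := bs.repr x
    let d : Q →₀ ℂ := c.mapDomain σ
    have hx : x = c.sum fun i a => a • bs i := by
      have := bs.linearCombination_repr x
      rw [Finsupp.linearCombination_apply] at this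
      exact this.symm
    have e1 : (x : H) = Finsupp.linearCombination ℂ f d := by
      rw [Finsupp.linearCombination_mapDomain, Finsupp.linearCombination_apply]
      conv_lhs => rw [hx]
      rw [Finsupp.sum, Submodule.coe_sum, Finsupp.sum]
      apply Finset.sum_congr rfl
      intro i _
      rw [Submodule.coe_smul]
      congr 1
      exact congrArg Subtype.val (Module.Basis.span_apply hli' i)
    have e2 : T0 x = Finsupp.linearCombination ℂ f (d.mapDomain τ) := by
      rw [Finsupp.linearCombination_mapDomain, Finsupp.linearCombination_mapDomain,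
        Finsupp.linearCombination_apply]
      conv_lhs => rw [hx]
      rw [map_finsuppSum]
      apply Finsupp.sum_congr
      intro i _
      rw [map_smul]
      congr 1
      simp [T0, τ]
    have h1 := (h d).1
    have h2 := (h (d.mapDomain τ)).2
    have h3 : ∑ k ∈ (d.mapDomain τ).support, ‖(d.mapDomain τ) k‖ ^ 2 = ∑ k ∈ d.support, ‖d k‖ ^ 2 := by
      rw [Finsupp.mapDomain_support_of_injective hτ, Finset.sum_image (fun a _ b _ h => hτ h)]
      apply Finset.sum_congr rfl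
      intro k _
      rw [Finsupp.mapDomain_apply hτ]
    rw [h3, ← e2] at h2
    rw [← e1] at h1
    have h4 : ‖T0 x‖ ^ 2 ≤ (Real.sqrt (B / A) * ‖x‖) ^ 2 := by
      rw [mul_pow, Real.sq_sqrt (by positivity)]
      have h5 : ∑ k ∈ d.support, ‖d k‖ ^ 2 ≤ ‖(x : H)‖ ^ 2 / A := by
        rw [le_div_iff₀ hA]
        linarith
      calc ‖T0 x‖ ^ 2 ≤ B * ∑ k ∈ d.support, ‖d k‖ ^ 2 := h2
        _ ≤ B * (‖(x : H)‖ ^ 2 / A) := by gcongr
        _ = B / A * ‖x‖ ^ 2 := by rw [Submodule.coe_norm]; ring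
    exact le_of_sq_le_sq h4 (by positivity)
  refine ⟨T0.mkContinuous (Real.sqrt (B / A)) hbound, fun k => ?_⟩
  have : (⟨f (σ k), Submodule.subset_span ⟨k, rfl⟩⟩ :
      Submodule.span ℂ (Set.range fun k => f (σ k))) = bs k := by
    apply Subtype.ext
    exact congrArg Subtype.val (Module.Basis.span_apply hli' k).symm
  beta_reduce
  rw [this]
  simp [T0]

end Pool.Agent.X231.Gabor
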