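import Mathlib

set_option autoImplicit false

open Matrix

namespace Pool.Agent.X231.LU

/-- Two by two complex matrices (operators on one qubit). -/
abbrev Mat2 := Matrix (Fin 2) (Fin 2) ℂ

/-- The Pauli matrices: `0 ↦ I`, `1 ↦ X`, `2 ↦ Y`, `3 ↦ Z`. -/
noncomputable def pauli : Fin 4 → Mat2 :=
  ![!![1, 0; 0, 1], !![0, 1; 1, 0], !![0, -Complex.I; Complex.I, 0], !![1, 0; 0, -1]]

/-- The tensor product `A 0 ⊗ ⋯ ⊗ A (n-1)` acting on functions `(Fin n → Fin 2) → ℂ`
(that is on `(ℂ²)^{⊗ n}` with its computational basis). -/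
def tens {n : ℕ} (A : Fin n → Mat2) : Matrix (Fin n → Fin 2) (Fin n → Fin 2) ℂ :=
  Matrix.of fun x y => ∏ i, A i (x i) (y i)

/-- The Pauli string operator of a word in the codes `0,1,2,3`. -/
noncomputable def pauliString {n : ℕ} (w : Fin n → Fin 4) :
    Matrix (Fin n → Fin 2) (Fin n → Fin 2) ℂ :=
  tens fun i => pauli (w i)

/-- The codespace `Q(S)` of the stabilizer group generated by the Pauli strings `g k`. -/
def codespace {n m : ℕ} (g : Fin m → Fin n → Fin 4) : Set ((Fin n → Fin 2) → ℂ) :=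
  {ψ | ∀ k, (pauliString (g k)).mulVec ψ = ψ}

/-- Local unitary equivalence of two sets of `n`-qubit vectors: some operator
`(U₁ ⊗ ⋯ ⊗ Uₙ) P_π`, where `P_π` permutes the qubits, maps `Q` onto `Q'`. -/
def LUEquiv {n : ℕ} (Q Q' : Set ((Fin n → Fin 2) → ℂ)) : Prop :=
  ∃ (U : Fin n → Mat2) (π : Equiv.Perm (Fin n)), (∀ i, U i ∈ Matrix.unitaryGroup (Fin 2) ℂ) ∧
    (fun ψ : (Fin n → Fin 2) → ℂ => (tens U).mulVec (fun x => ψ (x ∘ π))) '' Q = Q'

variable {n : ℕ}

theorem tens_mul (A B : Fin n → Mat2) : tens A * tens B = tens fun i => A i * B i := by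
  ext x y
  simp only [tens, Matrix.mul_apply, Matrix.of_apply]
  rw [Fintype.prod_sum]
  apply Finset.sum_congr rfl
  intro z _
  rw [Finset.prod_mul_distrib]

theorem tens_one : tens (fun _ : Fin n => (1 : Mat2)) = 1 := by
  ext x y
  simp only [tens, Matrix.of_apply, Matrix.one_apply]
  by_cases h : x = y
  · subst h; simp
  · rw [if_neg h]
    obtain ⟨i, hi⟩ := Function.ne_iff.mp h
    exact Finset.prod_eq_zero (Finset.mem_univ i) (by rw [if_neg hi])

theorem trace_tens (A : Fin n → Mat2) : trace (tens A) = ∏ i, trace (A i) := by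
  simp only [Matrix.trace, Matrix.diag_apply, tens, Matrix.of_apply]
  rw [Fintype.prod_sum]

theorem pauli_zero : pauli 0 = 1 := by
  rw [pauli]
  ext i j
  fin_cases i <;> fin_cases j <;> simp

theorem pauli_sq (a : Fin 4) : pauli a * pauli a = 1 := by
  fin_cases a <;> ext i j <;> fin_cases i <;> fin_cases j <;>
    simp [pauli, Matrix.mul_apply, Fin.sum_univ_two]

/-- product of Pauli codes -/
def mulCode : Fin 4 → Fin 4 → Fin 4 :=
  ![![0,1,2,3],![1,0,3,2],![2,3,0,1],![3,2,1,0]]

/-- commutation sign of Pauli codes -/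
def sgn : Fin 4 → Fin 4 → ℤ :=
  ![![1,1,1,1],![1,1,-1,-1],![1,-1,1,-1],![1,-1,-1,1]]

theorem pauli_comm (a b : Fin 4) : pauli a * pauli b = ((sgn a b : ℤ) : ℂ) • (pauli b * pauli a) := by
  fin_cases a <;> fin_cases b <;> ext i j <;> fin_cases i <;> fin_cases j <;>
    simp [pauli, Matrix.mul_apply, Fin.sum_univ_two, sgn]

theorem trace3 (a b c : Fin 4) (h : mulCode (mulCode a b) c ≠ 0) :
    trace (pauli a * pauli b * pauli c) = 0 := by
  revert h
  fin_cases a <;> fin_cases b <;> fin_cases c <;>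
    simp [pauli, Fin.sum_univ_two, mulCode, Matrix.trace]

theorem trace1 (a : Fin 4) (h : a ≠ 0) : trace (pauli a) = 0 := by
  revert h
  fin_cases a <;> simp [pauli, Fin.sum_univ_two, Matrix.trace]

theorem pauliString_sq (w : Fin n → Fin 4) : pauliString w * pauliString w = 1 := by
  rw [pauliString, tens_mul]
  simp only [pauli_sq]
  exact tens_one

theorem pauliString_comm (w v : Fin n → Fin 4) (h : ∏ i, sgn (w i) (v i) = 1) :
    pauliString w * pauliString v = pauliString v * pauliString w := by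
  rw [pauliString, pauliString, tens_mul, tens_mul]
  ext x y
  simp only [tens, Matrix.of_apply]
  have : ∀ i, (pauli (w i) * pauli (v i)) (x i) (y i) =
      ((sgn (w i) (v i) : ℤ) : ℂ) * (pauli (v i) * pauli (w i)) (x i) (y i) := by
    intro i
    rw [pauli_comm, Matrix.smul_apply, smul_eq_mul]
  simp only [this]
  rw [Finset.prod_mul_distrib, ← Int.cast_prod, h, Int.cast_one, one_mul]

/-- selected code -/
def sel (b : Bool) (a : Fin 4) : Fin 4 := if b then a else 0

/-- code of the product of the selected generators at position `j` -/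
def code (g : Fin 3 → Fin n → Fin 4) (c : Fin 3 → Bool) (j : Fin n) : Fin 4 :=
  mulCode (mulCode (sel (c 0) (g 0 j)) (sel (c 1) (g 1 j))) (sel (c 2) (g 2 j))

/-- product of the selected generators -/
noncomputable def E (g : Fin 3 → Fin n → Fin 4) (c : Fin 3 → Bool) :
    Matrix (Fin n → Fin 2) (Fin n → Fin 2) ℂ :=
  tens fun j => pauli (sel (c 0) (g 0 j)) * pauli (sel (c 1) (g 1 j)) * pauli (sel (c 2) (g 2 j))

theorem E_eq (g : Fin 3 → Fin n → Fin 4) (c : Fin 3 → Bool) :
    E g c = (if c 0 then pauliString (g 0) else 1) * (if c 1 then pauliString (g 1) else 1) *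
      (if c 2 then pauliString (g 2) else 1) := by
  have h : ∀ (b : Bool) (w : Fin n → Fin 4),
      (if b then pauliString w else 1) = tens (fun j => pauli (sel b (w j))) := by
    intro b w
    cases b
    · simp [sel, pauli_zero, tens_one]
    · rfl
  rw [h, h, h, tens_mul, tens_mul]
  rfl

theorem trace_tens_E (g : Fin 3 → Fin n → Fin 4) (c : Fin 3 → Bool) (B : Fin n → Mat2)
    (h : ∃ j, B j = 1 ∧ code g c j ≠ 0) : trace (tens B * E g c) = 0 := by
  obtain ⟨j, h1, h2⟩ := h
  rw [E, tens_mul, trace_tens]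
  apply Finset.prod_eq_zero (Finset.mem_univ j)
  rw [h1, one_mul]
  exact trace3 _ _ _ h2

/-- unnormalised projector on the codespace -/
noncomputable def Proj (g : Fin 3 → Fin n → Fin 4) : Matrix (Fin n → Fin 2) (Fin n → Fin 2) ℂ :=
  (1 + pauliString (g 0)) * (1 + pauliString (g 1)) * (1 + pauliString (g 2))

theorem Proj_eq (g : Fin 3 → Fin n → Fin 4) : Proj g =
    1 + E g ![true, false, false] + E g ![false, true, false] + E g ![false, false, true] +
      E g ![true, true, false] + E g ![true, false, true] + E g ![false, true, true] +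
      E g ![true, true, true] := by
  simp only [E_eq, Proj]
  simp
  noncomm_ring

theorem trace_Proj (g : Fin 3 → Fin n → Fin 4) (B : Fin n → Mat2)
    (h : ∀ c : Fin 3 → Bool, c ≠ (fun _ => false) → ∃ j, B j = 1 ∧ code g c j ≠ 0) :
    trace (tens B * Proj g) = trace (tens B) := by
  rw [Proj_eq]
  simp only [mul_add, trace_add, mul_one]
  rw [trace_tens_E, trace_tens_E, trace_tens_E, trace_tens_E, trace_tens_E, trace_tens_E,
    trace_tens_E]
  · simp
  all_goals exact h _ (by decide)

theorem Proj_fix (g : Fin 3 → Fin n → Fin 4)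
    (hc : ∀ k l, pauliString (g k) * pauliString (g l) = pauliString (g l) * pauliString (g k))
    (k : Fin 3) : pauliString (g k) * Proj g = Proj g := by
  have e : ∀ l, pauliString (g l) * (1 + pauliString (g l)) = 1 + pauliString (g l) := by
    intro l
    rw [mul_add, pauliString_sq, mul_one, add_comm]
  have e' : ∀ k l, pauliString (g k) * (1 + pauliString (g l)) =
      (1 + pauliString (g l)) * pauliString (g k) := by
    intro k l
    rw [mul_add, add_mul, hc, mul_one, one_mul]
  rw [Proj]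
  fin_cases k
  · show pauliString (g 0) * _ = _
    rw [← mul_assoc, ← mul_assoc, e]
  · show pauliString (g 1) * _ = _
    rw [← mul_assoc, ← mul_assoc, e', mul_assoc (1 + pauliString (g 0)), e]
  · show pauliString (g 2) * _ = _
    rw [← mul_assoc, ← mul_assoc, e', mul_assoc (1 + pauliString (g 0)), e', ← mul_assoc,
      mul_assoc, e]

theorem main (g : Fin 3 → Fin n → Fin 4)
    (hc : ∀ k l, pauliString (g k) * pauliString (g l) = pauliString (g l) * pauliString (g k))
    (hne : ∀ c : Fin 3 → Bool, c ≠ (fun _ => false) → ∃ j, code g c j ≠ 0)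
    (B : Fin n → Mat2) (hB : trace (tens B) = 0)
    (hfix : ∀ ψ ∈ codespace g, (tens B).mulVec ψ = ψ) :
    ∃ c : Fin 3 → Bool, c ≠ (fun _ => false) ∧ ∀ j, B j = 1 → code g c j = 0 := by
  by_contra hcon
  push Not at hcon
  have h1 : tens B * Proj g = Proj g := by
    ext x y
    have hy : (fun x => Proj g x y) ∈ codespace g := by
      intro k
      funext z
      exact congrFun (congrFun (Proj_fix g hc k) z) y
    exact congrFun (hfix _ hy) x
  have h2 := trace_Proj g B hcon
  have h3 := trace_Proj g (fun _ => 1) (fun c hc => by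
    obtain ⟨j, hj⟩ := hne c hc
    exact ⟨j, rfl, hj⟩)
  rw [tens_one, one_mul, ← h1, h2, hB, Matrix.trace_one] at h3
  simp at h3
  exact absurd h3.symm (pow_ne_zero _ two_ne_zero)

theorem key (g g' : Fin 3 → Fin n → Fin 4)
    (hc : ∀ k l, pauliString (g' k) * pauliString (g' l) = pauliString (g' l) * pauliString (g' k))
    (hne : ∀ c : Fin 3 → Bool, c ≠ (fun _ => false) → ∃ j, code g' c j ≠ 0)
    (h : LUEquiv (codespace g) (codespace g')) :
    ∃ π : Equiv.Perm (Fin n), ∀ k, (∃ i, g k i ≠ 0) →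
      ∃ c : Fin 3 → Bool, c ≠ (fun _ => false) ∧ ∀ j, g k (π.symm j) = 0 → code g' c j = 0 := by
  obtain ⟨U, π, hU, himg⟩ := h
  refine ⟨π, fun k hk => ?_⟩
  have hU1 : ∀ j, (U j)ᴴ * U j = 1 := fun j => (Matrix.mem_unitaryGroup_iff').1 (hU j)
  have hU2 : ∀ j, U j * (U j)ᴴ = 1 := fun j => (Matrix.mem_unitaryGroup_iff).1 (hU j)
  have hA : trace (tens fun j => U j * pauli (g k (π.symm j)) * (U j)ᴴ) = 0 := by
    rw [trace_tens]
    obtain ⟨i, hi⟩ := hk
    apply Finset.prod_eq_zero (Finset.mem_univ (π i))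
    rw [Matrix.trace_mul_comm, ← mul_assoc, hU1, one_mul, Equiv.symm_apply_apply]
    exact trace1 _ hi
  have hB : ∀ ψ ∈ codespace g', (tens fun j => U j * pauli (g k (π.symm j)) * (U j)ᴴ).mulVec ψ = ψ := by
    intro ψ' hψ'
    rw [← himg] at hψ'
    obtain ⟨ψ, hψ, rfl⟩ := hψ'
    beta_reduce
    rw [Matrix.mulVec_mulVec, tens_mul]
    have : (fun i => U i * pauli (g k (π.symm i)) * (U i)ᴴ * U i) =
        fun i => U i * pauli (g k (π.symm i)) := by
      funext i
      rw [mul_assoc, hU1, mul_one]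
    rw [this, ← tens_mul, ← Matrix.mulVec_mulVec]
    congr 1
    funext x
    have hk := congrFun (hψ k) (x ∘ π)
    simp only [Matrix.mulVec, dotProduct] at hk ⊢
    rw [← hk]
    let e : (Fin n → Fin 2) ≃ (Fin n → Fin 2) := Equiv.arrowCongr π.symm (Equiv.refl _)
    refine Fintype.sum_equiv e _ _ (fun y => ?_)
    have he : e y = y ∘ π := by
      funext i
      simp [e, Equiv.arrowCongr]
    rw [he]
    congr 1
    simp only [pauliString, tens, Matrix.of_apply]
    rw [← Equiv.prod_comp π]
    apply Finset.prod_congr rfl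
    intro i _
    simp
  obtain ⟨c, hc1, hc2⟩ := main g' hc hne _ hA hB
  refine ⟨c, hc1, fun j hj => hc2 j ?_⟩
  rw [hj, pauli_zero, mul_one, hU2]

end Pool.Agent.X231.LU
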