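import Mathlib
import Pool.Agent.TH236.SUDiag

set_option autoImplicit false

open Matrix

namespace Pool.Agent.X231.SUInv

variable {I J : Type*} [Fintype I] [DecidableEq I] [Fintype J] [DecidableEq J]

/-- an involution of `SU(I)` -/
def IsInv (M : Matrix I I ℂ) : Prop :=
  M ∈ Matrix.unitaryGroup I ℂ ∧ M.det = 1 ∧ M * M = 1

theorem isInv_one : IsInv (1 : Matrix I I ℂ) := ⟨one_mem _, det_one, one_mul 1⟩

def Two (M : Matrix I I ℂ) : Prop := ∃ A B, IsInv A ∧ IsInv B ∧ M = A * B
def Four (M : Matrix I I ℂ) : Prop := ∃ A B, Two A ∧ Two B ∧ M = A * B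
def Five (M : Matrix I I ℂ) : Prop := ∃ A B, IsInv A ∧ Four B ∧ M = A * B

theorem Four.five {M : Matrix I I ℂ} (h : Four M) : Five M := ⟨1, M, isInv_one, h, (one_mul M).symm⟩

/-- conjugation -/
theorem IsInv.conj {M V : Matrix I I ℂ} (h : IsInv M) (hV : V ∈ Matrix.unitaryGroup I ℂ) :
    IsInv (V * M * star V) := by
  obtain ⟨h1, h2, h3⟩ := h
  have hV1 : star V * V = 1 := mem_unitaryGroup_iff'.mp hV
  refine ⟨mul_mem (mul_mem hV h1) (by
    rw [mem_unitaryGroup_iff, star_star]; exact hV1), ?_, ?_⟩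
  · rw [det_mul, det_mul, h2, mul_one, ← det_mul, mem_unitaryGroup_iff.mp hV, det_one]
  · calc V * M * star V * (V * M * star V) = V * M * (star V * V) * M * star V := by
          simp only [mul_assoc]
      _ = V * (M * M) * star V := by rw [hV1, mul_one, mul_assoc V M M]
      _ = 1 := by rw [h3, mul_one, mem_unitaryGroup_iff.mp hV]

theorem conj_mul {A B V : Matrix I I ℂ} (hV : V ∈ Matrix.unitaryGroup I ℂ) :
    V * (A * B) * star V = (V * A * star V) * (V * B * star V) := by
  have hV1 : star V * V = 1 := mem_unitaryGroup_iff'.mp hV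
  calc V * (A * B) * star V = V * A * 1 * B * star V := by simp only [mul_assoc, one_mul]
    _ = V * A * (star V * V) * B * star V := by rw [hV1]
    _ = _ := by simp only [mul_assoc]

theorem Two.conj {M V : Matrix I I ℂ} (h : Two M) (hV : V ∈ Matrix.unitaryGroup I ℂ) :
    Two (V * M * star V) := by
  obtain ⟨A, B, hA, hB, rfl⟩ := h
  exact ⟨_, _, hA.conj hV, hB.conj hV, conj_mul hV⟩

theorem Four.conj {M V : Matrix I I ℂ} (h : Four M) (hV : V ∈ Matrix.unitaryGroup I ℂ) :
    Four (V * M * star V) := by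
  obtain ⟨A, B, hA, hB, rfl⟩ := h
  exact ⟨_, _, hA.conj hV, hB.conj hV, conj_mul hV⟩

theorem Five.conj {M V : Matrix I I ℂ} (h : Five M) (hV : V ∈ Matrix.unitaryGroup I ℂ) :
    Five (V * M * star V) := by
  obtain ⟨A, B, hA, hB, rfl⟩ := h
  exact ⟨_, _, hA.conj hV, hB.conj hV, conj_mul hV⟩

/-- reindexing -/
theorem IsInv.reindex {M : Matrix I I ℂ} (h : IsInv M) (e : J ≃ I) : IsInv (M.submatrix e e) := by
  obtain ⟨h1, h2, h3⟩ := h
  refine ⟨?_, ?_, ?_⟩
  · rw [mem_unitaryGroup_iff] at h1 ⊢
    rw [star_eq_conjTranspose, conjTranspose_submatrix, submatrix_mul_equiv,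
      ← star_eq_conjTranspose, h1, submatrix_one_equiv]
  · rw [det_submatrix_equiv_self, h2]
  · rw [submatrix_mul_equiv, h3, submatrix_one_equiv]

theorem Two.reindex {M : Matrix I I ℂ} (h : Two M) (e : J ≃ I) : Two (M.submatrix e e) := by
  obtain ⟨A, B, hA, hB, rfl⟩ := h
  exact ⟨_, _, hA.reindex e, hB.reindex e, (submatrix_mul_equiv _ _ _ _ _).symm⟩

theorem Four.reindex {M : Matrix I I ℂ} (h : Four M) (e : J ≃ I) : Four (M.submatrix e e) := by
  obtain ⟨A, B, hA, hB, rfl⟩ := h
  exact ⟨_, _, hA.reindex e, hB.reindex e, (submatrix_mul_equiv _ _ _ _ _).symm⟩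

theorem Five.reindex {M : Matrix I I ℂ} (h : Five M) (e : J ≃ I) : Five (M.submatrix e e) := by
  obtain ⟨A, B, hA, hB, rfl⟩ := h
  exact ⟨_, _, hA.reindex e, hB.reindex e, (submatrix_mul_equiv _ _ _ _ _).symm⟩

theorem four_diag_reindex (d : I → ℂ) (e : J ≃ I) (h : Four (diagonal (d ∘ e))) :
    Four (diagonal d) := by
  have := h.reindex e.symm
  rwa [submatrix_diagonal_equiv, Function.comp_assoc, Equiv.self_comp_symm, Function.comp_id] at this

theorem five_diag_reindex (d : I → ℂ) (e : J ≃ I) (h : Five (diagonal (d ∘ e))) :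
    Five (diagonal d) := by
  have := h.reindex e.symm
  rwa [submatrix_diagonal_equiv, Function.comp_assoc, Equiv.self_comp_symm, Function.comp_id] at this

/-- the monomial matrix with entries `y i` at `(i, σ i)` -/
def mono (σ : Equiv.Perm I) (y : I → ℂ) : Matrix I I ℂ := fun i j => if σ i = j then y i else 0

theorem mono_mul (σ : Equiv.Perm I) (hσ : ∀ i, σ (σ i) = i) (y z : I → ℂ) :
    mono σ y * mono σ z = diagonal (fun i => y i * z (σ i)) := by
  ext i j
  simp only [mono, Matrix.mul_apply, diagonal_apply]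
  rw [Finset.sum_eq_single (σ i)]
  · rw [if_pos rfl, hσ]
    split_ifs <;> simp
  · intro k _ hk
    rw [if_neg (Ne.symm hk), zero_mul]
  · intro h; exact absurd (Finset.mem_univ _) h

theorem mono_det (σ : Equiv.Perm I) (y : I → ℂ) :
    (mono σ y).det = (∏ i, y i) * ((Equiv.Perm.sign σ : ℤ) : ℂ) := by
  have : mono σ y = diagonal y * σ.permMatrix ℂ := by
    ext i j
    simp [mono, Matrix.diagonal_mul, Equiv.Perm.permMatrix, PEquiv.toMatrix_apply, eq_comm]
  rw [this, det_mul, det_diagonal, det_permutation]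

theorem mono_inv (σ : Equiv.Perm I) (hσ : ∀ i, σ (σ i) = i) (y : I → ℂ) (hy : ∀ i, ‖y i‖ = 1)
    (h1 : ∀ i, y i * y (σ i) = 1) (h2 : ∏ i, y i = ((Equiv.Perm.sign σ : ℤ) : ℂ)) :
    IsInv (mono σ y) := by
  refine ⟨?_, ?_, ?_⟩
  · rw [mem_unitaryGroup_iff]
    have : star (mono σ y) = mono σ (fun i => star (y (σ i))) := by
      ext i j
      simp only [star_apply, mono]
      by_cases h : σ i = j
      · subst h; rw [if_pos (hσ i), if_pos rfl]
      · rw [if_neg h, if_neg (fun h' => h (by rw [← h', hσ])), star_zero]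
    rw [this, mono_mul σ hσ]
    have : (fun i => y i * star (y (σ (σ i)))) = fun _ => 1 := by
      funext i
      rw [hσ, Complex.star_def, Complex.mul_conj, Complex.normSq_eq_norm_sq, hy]
      simp
    rw [this, diagonal_one]
  · rw [mono_det, h2]
    rcases Int.units_eq_one_or (Equiv.Perm.sign σ) with h | h <;> rw [h] <;> simp
  · rw [mono_mul σ hσ]
    simp only [h1]
    exact diagonal_one

theorem two_diag (a : I → ℂ) (ha : ∀ i, ‖a i‖ = 1) (hprod : ∏ i, a i = 1) (σ : Equiv.Perm I)
    (hσ : ∀ i, σ (σ i) = i) (hσa : ∀ i, a i * a (σ i) = 1)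
    (hpar : (∃ i, σ i = i) ∨ Equiv.Perm.sign σ = 1) : Two (diagonal a) := by
  obtain ⟨e, he, he1, hep⟩ : ∃ e : I → ℂ, (∀ i, e i = 1 ∨ e i = -1) ∧ (∀ i, σ i ≠ i → e i = 1) ∧
      ∏ i, e i = ((Equiv.Perm.sign σ : ℤ) : ℂ) := by
    rcases hpar with ⟨i0, hi0⟩ | h
    · refine ⟨fun i => if i = i0 then ((Equiv.Perm.sign σ : ℤ) : ℂ) else 1, ?_, ?_, ?_⟩
      · intro i
        beta_reduce
        split_ifs
        · rcases Int.units_eq_one_or (Equiv.Perm.sign σ) with h | h <;> rw [h] <;> simp
        · exact Or.inl rfl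
      · intro i hi
        beta_reduce
        rw [if_neg]
        rintro rfl
        exact hi hi0
      · rw [Finset.prod_ite_eq' Finset.univ i0, if_pos (Finset.mem_univ _)]
    · exact ⟨fun _ => 1, fun _ => Or.inl rfl, fun _ _ => rfl, by rw [h]; simp⟩
  have hee : ∀ i, e i * e i = 1 := fun i => by rcases he i with h | h <;> rw [h] <;> norm_num
  have hen : ∀ i, ‖e i‖ = 1 := fun i => by rcases he i with h | h <;> rw [h] <;> simp
  let f : I → ℂ := fun i => if σ i = i then 1 else a i
  let h : I → ℂ := fun i => if σ i = i then a i else 1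
  have hf : ∏ i, f i = 1 := by
    refine Finset.prod_involution (fun i _ => σ i) ?_ ?_ (fun _ _ => Finset.mem_univ _)
      (fun i _ => hσ i)
    · intro i _
      simp only [f, hσ]
      by_cases hi : σ i = i
      · rw [if_pos hi, if_pos hi.symm, one_mul]
      · rw [if_neg hi, if_neg (Ne.symm hi), hσa]
    · intro i _ hi
      simp only [f] at hi
      intro h'
      rw [if_pos h'] at hi
      exact hi rfl
  have hh : ∏ i, h i = 1 := by
    have : ∏ i, a i = (∏ i, f i) * ∏ i, h i := by
      rw [← Finset.prod_mul_distrib]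
      apply Finset.prod_congr rfl
      intro i _
      simp only [f, h]
      split_ifs <;> simp
    rw [hf, one_mul, hprod] at this
    exact this.symm
  have hfn : ∀ i, ‖f i‖ = 1 := fun i => by simp only [f]; split_ifs <;> simp [ha]
  have hhn : ∀ i, ‖h i‖ = 1 := fun i => by simp only [h]; split_ifs <;> simp [ha]
  refine ⟨mono σ (fun i => e i * f i), mono σ (fun i => e i * h i), ?_, ?_, ?_⟩
  · apply mono_inv σ hσ
    · intro i; rw [norm_mul, hen, hfn, one_mul]
    · intro i
      simp only [f, hσ]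
      by_cases hi : σ i = i
      · rw [if_pos hi, if_pos hi.symm, hi, mul_one, hee]
      · have hi' : σ (σ i) ≠ σ i := by rw [hσ]; exact Ne.symm hi
        rw [if_neg hi, if_neg (Ne.symm hi), he1 i hi, he1 (σ i) hi', one_mul, one_mul, hσa]
    · rw [Finset.prod_mul_distrib, hf, mul_one, hep]
  · apply mono_inv σ hσ
    · intro i; rw [norm_mul, hen, hhn, one_mul]
    · intro i
      simp only [h, hσ]
      by_cases hi : σ i = i
      · have h1 := hσa i
        rw [hi] at h1
        rw [if_pos hi, if_pos hi.symm, hi]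
        calc e i * a i * (e i * a i) = (e i * e i) * (a i * a i) := by ring
          _ = 1 := by rw [hee, h1, one_mul]
      · have hi' : σ (σ i) ≠ σ i := by rw [hσ]; exact Ne.symm hi
        rw [if_neg hi, if_neg (Ne.symm hi), he1 i hi, he1 (σ i) hi', one_mul, one_mul]
    · rw [Finset.prod_mul_distrib, hh, mul_one, hep]
  · rw [mono_mul σ hσ]
    congr 1
    funext i
    simp only [f, h, hσ]
    by_cases hi : σ i = i
    · rw [if_pos hi, if_pos hi.symm, hi, mul_one]
      calc a i = (e i * e i) * a i := by rw [hee, one_mul]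
        _ = _ := by ring
    · have hi' : σ (σ i) ≠ σ i := by rw [hσ]; exact Ne.symm hi
      rw [if_neg hi, if_neg (Ne.symm hi), he1 i hi, he1 (σ i) hi', one_mul, one_mul, mul_one]

/-! ### The chain decomposition -/

section chain

variable {n : ℕ}

/-- neighbour swap with parity `ε` on `Fin n` -/
def swF (n ε : ℕ) (i : Fin n) : Fin n :=
  if i.val % 2 = ε then (if h : i.val + 1 < n then ⟨i.val + 1, h⟩ else i)
  else (⟨i.val - 1, by omega⟩)

theorem swF_val (n ε : ℕ) (i : Fin n) : (swF n ε i).val =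
    if i.val % 2 = ε then (if i.val + 1 < n then i.val + 1 else i.val) else i.val - 1 := by
  rw [swF]
  split_ifs <;> rfl

theorem swF_invol (n ε : ℕ) (hε : ε = 0 ∨ ε = 1) (i : Fin n) : swF n ε (swF n ε i) = i := by
  apply Fin.ext
  have := i.isLt
  rw [swF_val, swF_val]
  rcases hε with rfl | rfl <;> split_ifs <;> omega

/-- the same with the pair `m-1, m` fixed -/
def swG (n m : ℕ) (i : Fin n) : Fin n := if i.val = m ∨ i.val + 1 = m then i else swF n 0 i

theorem swG_invol (n m : ℕ) (hm : m % 2 = 1) (i : Fin n) : swG n m (swG n m i) = i := by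
  rw [swG]
  have hi := i.isLt
  by_cases h : i.val = m ∨ i.val + 1 = m
  · rw [swG, if_pos h, if_pos h]
  · rw [swG, if_neg h, if_neg, swF_invol n 0 (Or.inl rfl)]
    rw [swF_val]
    split_ifs <;> omega

omit [DecidableEq I] in
theorem prod_one_of_invol (a : I → ℂ) (τ : I → I) (hτ : ∀ i, τ (τ i) = i)
    (h : ∀ i, a i * a (τ i) = 1) (hfix : ∀ i, τ i = i → a i = 1) : ∏ i, a i = 1 :=
  Finset.prod_involution (fun i _ => τ i) (fun i _ => h i) (fun i _ hi h' => hi (hfix i h'))
    (fun _ _ => Finset.mem_univ _) (fun i _ => hτ i)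

theorem chain_four (hn : 1 ≤ n) (D : ℕ → ℂ) (hD : ∀ t, ‖D t‖ = 1) (hprod : ∏ t ∈ Finset.range n, D t = 1)
    (hcase : n % 2 = 1 ∨ n % 4 = 0 ∨ ∃ m, m % 2 = 1 ∧ m < n ∧
      ((∏ t ∈ Finset.range m, D t) = 1 ∨ (∏ t ∈ Finset.range m, D t) = -1)) :
    Four (diagonal (fun i : Fin n => D i)) := by
  set p : ℕ → ℂ := fun j => ∏ t ∈ Finset.range j, D t with hp
  have hpn : ∀ j, ‖p j‖ = 1 := by
    intro j
    rw [hp]
    beta_reduce
    rw [norm_prod]
    exact Finset.prod_eq_one (fun t _ => hD t)
  have hp0 : ∀ j, p j ≠ 0 := fun j h => by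
    have := hpn j
    rw [h, norm_zero] at this
    exact zero_ne_one this
  have hps : ∀ j, p (j + 1) = p j * D j := fun j => Finset.prod_range_succ _ _
  have hpz : p 0 = 1 := rfl
  have hpn1 : p n = 1 := hprod
  let a : Fin n → ℂ := fun i => if i.val % 2 = 0 then p (i.val + 1) else (p i.val)⁻¹
  let b : Fin n → ℂ := fun i => if i.val % 2 = 1 then p (i.val + 1) else (p i.val)⁻¹
  have hab : diagonal (fun i : Fin n => D i) = diagonal a * diagonal b := by
    rw [diagonal_mul_diagonal]
    congr 1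
    funext i
    simp only [a, b]
    have h0 := hp0 i.val
    rcases Nat.mod_two_eq_zero_or_one i.val with h | h
    · rw [if_pos h, if_neg (by omega), hps]
      field_simp
    · rw [if_neg (by omega), if_pos h, hps]
      field_simp
  have ha : ∀ i, ‖a i‖ = 1 := by
    intro i; simp only [a]; split_ifs <;> simp [hpn]
  have hb : ∀ i, ‖b i‖ = 1 := by
    intro i; simp only [b]; split_ifs <;> simp [hpn]
  have haσ : ∀ i, a i * a (swF n 0 i) = 1 := by
    intro i
    have hi := i.isLt
    have hv := swF_val n 0 i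
    simp only [a]
    by_cases h : i.val % 2 = 0
    · rw [if_pos h]
      by_cases h1 : i.val + 1 < n
      · rw [if_pos h, if_pos h1] at hv
        rw [hv, if_neg (by omega), mul_inv_cancel₀ (hp0 _)]
      · rw [if_pos h, if_neg h1] at hv
        rw [hv, if_pos h, show i.val + 1 = n by omega, hpn1, one_mul]
    · rw [if_neg h]
      rw [if_neg h] at hv
      rw [hv, if_pos (by omega), show i.val - 1 + 1 = i.val by omega, inv_mul_cancel₀ (hp0 _)]
  have hbσ : ∀ i, b i * b (swF n 1 i) = 1 := by
    intro i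
    have hi := i.isLt
    have hv := swF_val n 1 i
    simp only [b]
    by_cases h : i.val % 2 = 1
    · rw [if_pos h]
      by_cases h1 : i.val + 1 < n
      · rw [if_pos h, if_pos h1] at hv
        rw [hv, if_neg (by omega), mul_inv_cancel₀ (hp0 _)]
      · rw [if_pos h, if_neg h1] at hv
        rw [hv, if_pos h, show i.val + 1 = n by omega, hpn1, one_mul]
    · rw [if_neg h]
      rw [if_neg h] at hv
      by_cases h0 : i.val = 0
      · rw [hv, if_neg (by omega), h0, hpz, inv_one, one_mul]
      · rw [hv, if_pos (by omega), show i.val - 1 + 1 = i.val by omega, inv_mul_cancel₀ (hp0 _)]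
  have hpa : ∏ i, a i = 1 := by
    refine prod_one_of_invol a (swF n 0) (swF_invol n 0 (Or.inl rfl)) haσ ?_
    intro i hi
    have hi' := i.isLt
    have hv := swF_val n 0 i
    rw [hi] at hv
    split_ifs at hv with h1 h2
    · omega
    · simp only [a]
      rw [if_pos h1, show i.val + 1 = n by omega, hpn1]
    · omega
  have hpb : ∏ i, b i = 1 := by
    refine prod_one_of_invol b (swF n 1) (swF_invol n 1 (Or.inr rfl)) hbσ ?_
    intro i hi
    have hi' := i.isLt
    have hv := swF_val n 1 i
    rw [hi] at hv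
    simp only [b]
    split_ifs at hv with h1 h2
    · omega
    · rw [if_pos h1, show i.val + 1 = n by omega, hpn1]
    · rw [if_neg h1, show i.val = 0 by omega, hpz, inv_one]
  have hB : Two (diagonal b) := by
    refine two_diag b hb hpb (Function.Involutive.toPerm (swF n 1) (swF_invol n 1 (Or.inr rfl)))
      (swF_invol n 1 (Or.inr rfl)) hbσ (Or.inl ⟨⟨0, by omega⟩, ?_⟩)
    apply Fin.ext
    show (swF n 1 ⟨0, by omega⟩).val = 0
    rw [swF_val]
    simp
  refine ⟨_, _, ?_, hB, hab⟩
  rcases hcase with h | h | ⟨m, hm, hmn, hpm⟩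
  · refine two_diag a ha hpa (Function.Involutive.toPerm (swF n 0) (swF_invol n 0 (Or.inl rfl)))
      (swF_invol n 0 (Or.inl rfl)) haσ (Or.inl ⟨⟨n - 1, by omega⟩, ?_⟩)
    apply Fin.ext
    show (swF n 0 ⟨n - 1, by omega⟩).val = n - 1
    rw [swF_val]
    simp only
    rw [if_pos (by omega), if_neg (by omega)]
  · refine two_diag a ha hpa (Function.Involutive.toPerm (swF n 0) (swF_invol n 0 (Or.inl rfl)))
      (swF_invol n 0 (Or.inl rfl)) haσ (Or.inr ?_)
    rw [Equiv.Perm.sign_of_pow_two_eq_one]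
    · have hc : Fintype.card (Function.fixedPoints
          (Function.Involutive.toPerm (swF n 0) (swF_invol n 0 (Or.inl rfl)))) = 0 := by
        rw [Fintype.card_eq_zero_iff]
        refine ⟨fun ⟨i, hi⟩ => ?_⟩
        have hi2 : swF n 0 i = i := hi
        have hv := swF_val n 0 i
        rw [hi2] at hv
        have := i.isLt
        split_ifs at hv <;> omega
      rw [hc, Nat.sub_zero, Fintype.card_fin]
      apply Even.neg_one_pow
      rw [Nat.even_iff]
      omega
    · ext i
      show (swF n 0 (swF n 0 i)).val = i.val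
      rw [swF_invol n 0 (Or.inl rfl)]
  · have hpm' : p m * p m = 1 := by
      rcases hpm with h | h <;> · show (∏ t ∈ Finset.range m, D t) * (∏ t ∈ Finset.range m, D t) = 1
                                  rw [h]; norm_num
    refine two_diag a ha hpa (Function.Involutive.toPerm (swG n m) (swG_invol n m hm))
      (swG_invol n m hm) ?_ (Or.inl ⟨⟨m, hmn⟩, ?_⟩)
    · intro i
      show a i * a (swG n m i) = 1
      rw [swG]
      by_cases h : i.val = m ∨ i.val + 1 = m
      · rw [if_pos h]
        simp only [a]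
        rcases h with h | h
        · rw [if_neg (by omega), h, ← mul_inv, hpm', inv_one]
        · rw [if_pos (by omega), h, hpm']
      · rw [if_neg h, haσ]
    · apply Fin.ext
      show (swG n m ⟨m, hmn⟩).val = m
      rw [swG, if_pos (Or.inl rfl)]

end chain

/-- If an odd set of the entries has product `±1`, four involutions suffice. -/
theorem odd_set (d : I → ℂ) (hd : ∀ i, ‖d i‖ = 1) (hprod : ∏ i, d i = 1) (S : Finset I)
    (hS : S.card % 2 = 1) (hSp : (∏ i ∈ S, d i) = 1 ∨ (∏ i ∈ S, d i) = -1) :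
    Four (diagonal d) := by
  let m := Fintype.card {i // i ∈ S}
  let m' := Fintype.card {i // i ∉ S}
  let e : Fin (m + m') ≃ I := finSumFinEquiv.symm.trans ((Equiv.sumCongr
    (Fintype.equivFin {i // i ∈ S}).symm (Fintype.equivFin {i // i ∉ S}).symm).trans
      (Equiv.sumCompl (fun i => i ∈ S)))
  have hm : m = S.card := Fintype.card_coe S
  let D : ℕ → ℂ := fun t => if h : t < m + m' then d (e ⟨t, h⟩) else 1
  have hDe : (fun i : Fin (m + m') => D i) = d ∘ e := by
    funext i
    simp [D]
  have hDm : ∏ t ∈ Finset.range m, D t = ∏ i ∈ S, d i := by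
    rw [Finset.prod_range, ← Finset.prod_coe_sort S]
    rw [← Equiv.prod_comp (Fintype.equivFin {i // i ∈ S}).symm]
    apply Finset.prod_congr rfl
    intro i _
    have hi : i.val < m + m' := by have := i.isLt; omega
    simp only [D]
    rw [dif_pos hi]
    congr 1
    simp only [e, Equiv.trans_apply]
    have : finSumFinEquiv.symm (⟨i.val, hi⟩ : Fin (m + m')) = Sum.inl i := by
      rw [Equiv.symm_apply_eq]
      rfl
    rw [this]
    rfl
  apply four_diag_reindex d e
  rw [← hDe]
  apply chain_four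
  · have : 0 < S.card := by
      rcases Nat.eq_zero_or_pos S.card with h | h
      · rw [h] at hS; norm_num at hS
      · exact h
    omega
  · intro t
    simp only [D]
    split_ifs
    · exact hd _
    · exact norm_one
  · rw [Finset.prod_range, hDe]
    simp only [Function.comp_apply]
    rw [Equiv.prod_comp e, hprod]
  · by_cases h : m' = 0
    · left; rw [h, hm]; omega
    · right; right
      exact ⟨m, by omega, by omega, by rw [hDm]; exact hSp⟩

theorem exists_t (z w : ℂ) (hz : ‖z‖ = 1) (hw : ‖w‖ = 1) (hne : z ≠ w) (h : z.im * w.im ≤ 0) :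
    ∃ t : ℝ, t ^ 2 ≤ 1 ∧ (t : ℂ) * (z - w) = 1 - w * z := by
  have hz0 : z ≠ 0 := fun h => by rw [h, norm_zero] at hz; exact zero_ne_one hz
  have hw0 : w ≠ 0 := fun h => by rw [h, norm_zero] at hw; exact zero_ne_one hw
  have hzw : z - w ≠ 0 := sub_ne_zero.mpr hne
  have cz : (starRingEnd ℂ) z = z⁻¹ := by
    rw [Complex.inv_def, Complex.normSq_eq_norm_sq, hz]; simp
  have cw : (starRingEnd ℂ) w = w⁻¹ := by
    rw [Complex.inv_def, Complex.normSq_eq_norm_sq, hw]; simp
  have hwz : w - z ≠ 0 := sub_ne_zero.mpr (Ne.symm hne)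
  have hreal : (starRingEnd ℂ) ((1 - w * z) / (z - w)) = (1 - w * z) / (z - w) := by
    rw [map_div₀, map_sub, map_sub, map_mul, map_one, cz, cw]
    have e1 : z⁻¹ - w⁻¹ = (w - z) / (z * w) := by field_simp
    have e2 : 1 - w⁻¹ * z⁻¹ = (w * z - 1) / (z * w) := by field_simp
    rw [e1, e2, div_div_div_cancel_right₀ (mul_ne_zero hz0 hw0)]
    rw [div_eq_div_iff hwz hzw]
    ring
  have hre := Complex.conj_eq_iff_re.mp hreal
  refine ⟨((1 - w * z) / (z - w)).re, ?_, ?_⟩
  · have h1 : ((1 - w * z) / (z - w)).re ^ 2 = Complex.normSq ((1 - w * z) / (z - w)) := by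
      rw [Complex.normSq_apply]
      have : ((1 - w * z) / (z - w)).im = 0 := by
        rw [← hre]; exact Complex.ofReal_im _
      rw [this]; ring
    rw [h1, Complex.normSq_div, div_le_one (Complex.normSq_pos.mpr hzw)]
    have nz : z.re * z.re + z.im * z.im = 1 := by
      rw [← Complex.normSq_apply, Complex.normSq_eq_norm_sq, hz]; norm_num
    have nw : w.re * w.re + w.im * w.im = 1 := by
      rw [← Complex.normSq_apply, Complex.normSq_eq_norm_sq, hw]; norm_num
    rw [Complex.normSq_apply, Complex.normSq_apply]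
    simp only [Complex.sub_re, Complex.one_re, Complex.mul_re, Complex.sub_im, Complex.one_im,
      Complex.mul_im]
    nlinarith
  · rw [hre, div_mul_cancel₀ _ hzw]

theorem sign_change (k : ℕ) (hk : 1 ≤ k) (f : ℕ → ℝ) (h : f k = - f 0) :
    ∃ r, r < k ∧ f r * f (r + 1) ≤ 0 := by
  by_contra hcon
  push Not at hcon
  have h1 : ∀ r, r ≤ k → 0 < f 0 * f r := by
    intro r
    induction r with
    | zero =>
      intro _
      have := hcon 0 (by omega)
      have h0 : f 0 ≠ 0 := fun h => by rw [h, zero_mul] at this; exact lt_irrefl _ this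
      exact mul_self_pos.mpr h0
    | succ r ih =>
      intro hr
      have h2 := ih (by omega)
      have h3 := hcon r (by omega)
      by_contra hneg
      push Not at hneg
      rcases lt_trichotomy (f r) 0 with h4 | h4 | h4
      · have : f 0 < 0 := by nlinarith
        have : f (r + 1) < 0 := by nlinarith
        nlinarith
      · rw [h4, mul_zero] at h2; exact lt_irrefl _ h2
      · have : 0 < f 0 := by nlinarith
        have : 0 < f (r + 1) := by nlinarith
        nlinarith
  have h2 := h1 k le_rfl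
  rw [h] at h2
  nlinarith [sq_nonneg (f 0)]

variable {R : Type*} [Fintype R] [DecidableEq R]

/-- the real reflection -/
noncomputable def Rt (t : ℝ) : Matrix (Fin 2) (Fin 2) ℂ :=
  !![(t : ℂ), ((Real.sqrt (1 - t ^ 2) : ℝ) : ℂ); ((Real.sqrt (1 - t ^ 2) : ℝ) : ℂ), -(t : ℂ)]

theorem Rt_facts (t : ℝ) (ht : t ^ 2 ≤ 1) : Rt t * Rt t = 1 ∧ star (Rt t) = Rt t ∧ (Rt t).det = -1 := by
  have hs : ((Real.sqrt (1 - t ^ 2) : ℝ) : ℂ) * ((Real.sqrt (1 - t ^ 2) : ℝ) : ℂ) = 1 - (t : ℂ) ^ 2 := by
    rw [← Complex.ofReal_mul, Real.mul_self_sqrt (by linarith)]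
    push_cast; ring
  refine ⟨?_, ?_, ?_⟩
  · ext i j
    fin_cases i <;> fin_cases j <;>
      simp [Rt, Matrix.mul_apply, Fin.sum_univ_two] <;> first | linear_combination hs | ring
  · ext i j
    fin_cases i <;> fin_cases j <;> simp [Rt, Matrix.star_apply]
  · rw [Rt, det_fin_two]
    simp
    linear_combination -hs

omit [DecidableEq R] in
theorem blocks_mul (A B : Matrix (Fin 2) (Fin 2) ℂ) (C D : Matrix R R ℂ) :
    fromBlocks A 0 0 C * fromBlocks B 0 0 D = fromBlocks (A * B) 0 0 (C * D) := by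
  rw [fromBlocks_multiply]
  simp

omit [Fintype R] [DecidableEq R] in
theorem blocks_star (A : Matrix (Fin 2) (Fin 2) ℂ) (C : Matrix R R ℂ) :
    star (fromBlocks A 0 0 C) = fromBlocks (star A) 0 0 (star C) := by
  rw [star_eq_conjTranspose, fromBlocks_conjTranspose]
  simp [star_eq_conjTranspose]

theorem block_five (ci cj : ℂ) (hci : ‖ci‖ = 1) (hcj : ‖cj‖ = 1) (w : R → ℂ) (hw : ∀ x, ‖w x‖ = 1)
    (hprod : ci * cj * ∏ x, w x = 1) (l : R) (t : ℝ) (ht : t ^ 2 ≤ 1) (μ : ℂ)
    (hμ : μ ^ 2 - t * (ci - cj) * μ - ci * cj = 0) (T : Finset R) (hT : T.card % 2 = 0)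
    (hTp : μ * ∏ x ∈ T, w x = 1) : Five (diagonal (Sum.elim ![ci, cj] w)) := by
  obtain ⟨hR1, hR2, hR3⟩ := Rt_facts t ht
  have hRu : Rt t ∈ unitaryGroup (Fin 2) ℂ := by rw [mem_unitaryGroup_iff, hR2, hR1]
  have hdu : diagonal ![ci, cj] ∈ unitaryGroup (Fin 2) ℂ := by
    rw [mem_unitaryGroup_iff, star_eq_conjTranspose, diagonal_conjTranspose, diagonal_mul_diagonal]
    rw [← diagonal_one]
    congr 1
    funext i
    fin_cases i
    · simp [Complex.mul_conj, Complex.normSq_eq_norm_sq, hci]
    · simp [Complex.mul_conj, Complex.normSq_eq_norm_sq, hcj]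
  set N := Rt t * diagonal ![ci, cj] with hN
  have hNu : N ∈ unitaryGroup (Fin 2) ℂ := mul_mem hRu hdu
  obtain ⟨V2, hV2, ν, hν⟩ := Pool.TH236.SU.unitary_diag N hNu
  have hνn : ∀ i, ‖ν i‖ = 1 := Pool.TH236.SU.diag_norm N V2 hNu hV2 ν hν
  have hV1 : star V2 * V2 = 1 := mem_unitaryGroup_iff'.mp hV2
  have hV1' : V2 * star V2 = 1 := mem_unitaryGroup_iff.mp hV2
  have htr : ν 0 + ν 1 = t * (ci - cj) := by
    have h1 : N.trace = ν 0 + ν 1 := by
      rw [hν, trace_mul_comm, ← mul_assoc, hV1, one_mul, trace_fin_two]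
      simp
    rw [← h1, hN, trace_fin_two]
    simp [Rt, Matrix.mul_apply, Fin.sum_univ_two]
    ring
  have hdet : ν 0 * ν 1 = - (ci * cj) := by
    have h1 : N.det = ν 0 * ν 1 := by
      rw [hν, det_mul, det_mul, mul_right_comm, ← det_mul, hV1', det_one, one_mul, det_diagonal,
        Fin.prod_univ_two]
    rw [← h1, hN, det_mul, hR3, det_diagonal, Fin.prod_univ_two]
    simp
  obtain ⟨a, ha⟩ : ∃ a : Fin 2, μ = ν a := by
    have : (μ - ν 0) * (μ - ν 1) = 0 := by linear_combination hμ - μ * htr + hdet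
    rcases mul_eq_zero.mp this with h | h
    · exact ⟨0, sub_eq_zero.mp h⟩
    · exact ⟨1, sub_eq_zero.mp h⟩
  let η : R → ℂ := fun x => if x = l then -1 else 1
  have hη1 : ∀ x, η x = 1 ∨ η x = -1 := by
    intro x; simp only [η]; split_ifs
    · exact Or.inr rfl
    · exact Or.inl rfl
  have hηη : ∀ x, η x * η x = 1 := fun x => by rcases hη1 x with h | h <;> rw [h] <;> norm_num
  have hηn : ∀ x, ‖η x‖ = 1 := fun x => by rcases hη1 x with h | h <;> rw [h] <;> simp
  have hηp : ∏ x, η x = -1 := by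
    simp only [η]
    rw [Finset.prod_ite_eq' Finset.univ l, if_pos (Finset.mem_univ _)]
  have hηT : (∏ x ∈ T, η x) = 1 ∨ (∏ x ∈ T, η x) = -1 := by
    apply Finset.prod_induction _ (fun y : ℂ => y = 1 ∨ y = -1)
    · rintro x y (rfl | rfl) (rfl | rfl) <;> norm_num
    · exact Or.inl rfl
    · exact fun x _ => hη1 x
  let ι : Matrix (Fin 2 ⊕ R) (Fin 2 ⊕ R) ℂ := fromBlocks (Rt t) 0 0 (diagonal η)
  have hιι : ι * ι = 1 := by
    simp only [ι]
    rw [blocks_mul, hR1, diagonal_mul_diagonal]
    simp only [hηη]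
    rw [diagonal_one, fromBlocks_one]
  have hιs : star ι = ι := by
    simp only [ι]
    rw [blocks_star, hR2, star_eq_conjTranspose, diagonal_conjTranspose]
    congr 2
    funext x
    rcases hη1 x with h | h <;> rw [Pi.star_apply, h] <;> simp
  have hιi : IsInv ι := by
    refine ⟨by rw [mem_unitaryGroup_iff, hιs, hιι], ?_, hιι⟩
    simp only [ι]
    rw [det_fromBlocks_zero₂₁, hR3, det_diagonal, hηp]
    norm_num
  have hM : ι * diagonal (Sum.elim ![ci, cj] w) = fromBlocks N 0 0 (diagonal fun x => η x * w x) := by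
    simp only [ι]
    rw [← fromBlocks_diagonal, blocks_mul, diagonal_mul_diagonal]
  let V : Matrix (Fin 2 ⊕ R) (Fin 2 ⊕ R) ℂ := fromBlocks V2 0 0 1
  have hVu : V ∈ unitaryGroup (Fin 2 ⊕ R) ℂ := by
    rw [mem_unitaryGroup_iff]
    simp only [V]
    rw [blocks_star, blocks_mul, hV1', star_one, one_mul, fromBlocks_one]
  have hM2 : fromBlocks N 0 0 (diagonal fun x => η x * w x) =
      V * diagonal (Sum.elim ν fun x => η x * w x) * star V := by
    simp only [V]
    rw [← fromBlocks_diagonal, blocks_star, blocks_mul, blocks_mul, ← hν, star_one, one_mul, mul_one]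
  refine ⟨ι, ι * diagonal (Sum.elim ![ci, cj] w), hιi, ?_, ?_⟩
  · rw [hM, hM2]
    apply Four.conj _ hVu
    apply odd_set _ _ _ (Finset.disjSum {a} T)
    · rw [Finset.card_disjSum, Finset.card_singleton]; omega
    · rw [Finset.prod_disjSum, Finset.prod_singleton]
      simp only [Sum.elim_inl, Sum.elim_inr]
      rw [Finset.prod_mul_distrib, ← ha]
      have : μ * ((∏ x ∈ T, η x) * ∏ x ∈ T, w x) = ∏ x ∈ T, η x := by
        calc μ * ((∏ x ∈ T, η x) * ∏ x ∈ T, w x) = (∏ x ∈ T, η x) * (μ * ∏ x ∈ T, w x) := by ring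
          _ = _ := by rw [hTp, mul_one]
      rw [this]
      exact hηT
    · rintro (x | x)
      · exact hνn x
      · simp [hηn, hw]
    · rw [Fintype.prod_sum_type]
      simp only [Sum.elim_inl, Sum.elim_inr]
      rw [Fin.prod_univ_two, hdet, Finset.prod_mul_distrib, hηp]
      linear_combination hprod
  · rw [← mul_assoc, hιι, one_mul]

theorem five_even (k : ℕ) (hk : k % 2 = 1) (hk3 : 3 ≤ k) (c : Fin (2 * k) → ℂ) (hc : ∀ i, ‖c i‖ = 1)
    (hprod : ∏ i, c i = 1) : Five (diagonal c) := by
  let C : ℕ → ℂ := fun t => if h : t < 2 * k then c ⟨t, h⟩ else 1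
  have hCc : ∀ i : Fin (2 * k), C i = c i := fun i => by simp [C]
  have hCn : ∀ t, ‖C t‖ = 1 := by
    intro t; simp only [C]; split_ifs
    · exact hc _
    · exact norm_one
  have hC0 : ∀ t, C t ≠ 0 := fun t h => by
    have := hCn t; rw [h, norm_zero] at this; exact zero_ne_one this
  let P : ℕ → ℂ := fun r => ∏ t ∈ Finset.Ico r (r + k), C t
  have hPn : ∀ r, ‖P r‖ = 1 := by
    intro r
    simp only [P]
    rw [norm_prod]
    exact Finset.prod_eq_one (fun t _ => hCn t)
  have hPstep : ∀ r, C r * P (r + 1) = P r * C (r + k) := by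
    intro r
    simp only [P]
    have h1 := Finset.prod_Ico_succ_top (show r ≤ r + k by omega) C
    have h2 := Finset.prod_eq_prod_Ico_succ_bot (show r < r + k + 1 by omega) C
    rw [← h1, h2, show r + k + 1 = r + 1 + k by ring]
  have hall : P 0 * P k = 1 := by
    simp only [P]
    rw [zero_add, Finset.prod_Ico_consecutive _ (by omega) (by omega), ← Finset.range_eq_Ico,
      show k + k = 2 * k by ring, Finset.prod_range]
    simp only [hCc]
    exact hprod
  have hPk : (P k).im = - (P 0).im := by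
    have : P k = (starRingEnd ℂ) (P 0) := by
      have h0 : P 0 ≠ 0 := fun h => by rw [h, zero_mul] at hall; exact zero_ne_one hall
      have h1 : P 0 * (starRingEnd ℂ) (P 0) = 1 := by
        rw [Complex.mul_conj, Complex.normSq_eq_norm_sq, hPn]; simp
      exact mul_left_cancel₀ h0 (hall.trans h1.symm)
    rw [this, Complex.conj_im]
  obtain ⟨r, hrk, hr⟩ := sign_change k (by omega) (fun r => (P r).im) hPk
  let S : Finset (Fin (2 * k)) := Finset.univ.filter fun i => r ≤ i.val ∧ i.val < r + k
  have hSmap : S.map Fin.valEmbedding = Finset.Ico r (r + k) := by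
    ext x
    simp only [S, Finset.mem_map, Finset.mem_filter, Finset.mem_univ, true_and,
      Fin.valEmbedding_apply, Finset.mem_Ico]
    constructor
    · rintro ⟨i, h, rfl⟩; exact h
    · intro h; exact ⟨⟨x, by omega⟩, h, rfl⟩
  have hScard : S.card = k := by
    rw [← Finset.card_map Fin.valEmbedding, hSmap, Nat.card_Ico]; omega
  have hSprod : ∏ i ∈ S, c i = P r := by
    simp only [P]
    rw [← hSmap, Finset.prod_map]
    apply Finset.prod_congr rfl
    intro i _
    exact (hCc i).symm
  by_cases hne : P r = P (r + 1)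
  · apply Four.five
    apply odd_set c hc hprod S (by rw [hScard]; exact hk)
    rw [hSprod]
    have him : (P r).im = 0 := by
      have h2 : (P r).im * (P (r + 1)).im ≤ 0 := hr
      rw [← hne] at h2
      nlinarith [sq_nonneg (P r).im]
    have hre : (P r).re * (P r).re = 1 := by
      have : (P r).re * (P r).re + (P r).im * (P r).im = 1 := by
        rw [← Complex.normSq_apply, Complex.normSq_eq_norm_sq, hPn]; norm_num
      rw [him] at this
      linarith
    rcases mul_self_eq_one_iff.mp hre with h | h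
    · left; apply Complex.ext <;> simp [h, him]
    · right; apply Complex.ext <;> simp [h, him]
  · obtain ⟨t, ht, hte⟩ := exists_t (P r) (P (r + 1)) (hPn _) (hPn _) hne hr
    let i : Fin (2 * k) := ⟨r, by omega⟩
    let j : Fin (2 * k) := ⟨r + k, by omega⟩
    have hij : i ≠ j := by intro h; have := congrArg Fin.val h; simp [i, j] at this; omega
    have hiS : i ∈ S := by simp only [S, Finset.mem_filter, Finset.mem_univ, true_and, i]; omega
    have hjS : j ∉ S := by simp only [S, Finset.mem_filter, Finset.mem_univ, true_and, j]; omega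
    let Rr := {x : Fin (2 * k) // x ≠ i ∧ x ≠ j}
    let f : Fin 2 ⊕ Rr → Fin (2 * k) := Sum.elim ![i, j] Subtype.val
    have hf : Function.Bijective f := by
      constructor
      · rintro (x | x) (y | y) h
        · fin_cases x <;> fin_cases y
          · rfl
          · exact absurd h hij
          · exact absurd h (Ne.symm hij)
          · rfl
        · exfalso
          fin_cases x
          · exact y.2.1 h.symm
          · exact y.2.2 h.symm
        · exfalso
          fin_cases y
          · exact x.2.1 h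
          · exact x.2.2 h
        · exact congrArg Sum.inr (Subtype.ext h)
      · intro x
        by_cases hxi : x = i
        · exact ⟨Sum.inl 0, hxi.symm⟩
        by_cases hxj : x = j
        · exact ⟨Sum.inl 1, hxj.symm⟩
        · exact ⟨Sum.inr ⟨x, hxi, hxj⟩, rfl⟩
    let e : Fin 2 ⊕ Rr ≃ Fin (2 * k) := Equiv.ofBijective f hf
    apply five_diag_reindex c e
    have hce : c ∘ e = Sum.elim ![c i, c j] (fun x : Rr => c x.val) := by
      funext x
      rcases x with x | x
      · fin_cases x <;> rfl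
      · rfl
    rw [hce]
    have hci : c i = C r := (hCc i).symm
    have hcj : c j = C (r + k) := (hCc j).symm
    have hPr0 : P r ≠ 0 := fun h => by have := hPn r; rw [h, norm_zero] at this; exact zero_ne_one this
    have hstep := hPstep r
    rw [← hci, ← hcj] at hstep
    let T : Finset Rr := Finset.univ.filter fun x => x.val ∈ S
    have hTmap : T.map (Function.Embedding.subtype _) = S.erase i := by
      ext x
      simp only [T, Finset.mem_map, Finset.mem_filter, Finset.mem_univ, true_and,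
        Function.Embedding.subtype_apply, Finset.mem_erase]
      constructor
      · rintro ⟨y, hy, rfl⟩; exact ⟨y.2.1, hy⟩
      · rintro ⟨h1, h2⟩
        exact ⟨⟨x, h1, fun h => hjS (h ▸ h2)⟩, h2, rfl⟩
    have hTcard : T.card = k - 1 := by
      rw [← Finset.card_map (Function.Embedding.subtype _), hTmap, Finset.card_erase_of_mem hiS, hScard]
    have hTprod : c i * ∏ x ∈ T, c x.val = P r := by
      have : ∏ x ∈ T, c x.val = ∏ x ∈ S.erase i, c x := by
        rw [← hTmap, Finset.prod_map]; rfl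
      rw [this, Finset.mul_prod_erase S c hiS, hSprod]
    have hl : ∃ l : Fin (2 * k), l ≠ i ∧ l ≠ j := by
      have hcard : ({i, j} : Finset (Fin (2 * k))).card < (Finset.univ : Finset (Fin (2 * k))).card := by
        rw [Finset.card_univ, Fintype.card_fin]
        have := Finset.card_le_two (a := i) (b := j)
        omega
      obtain ⟨l, -, hl⟩ := Finset.exists_mem_notMem_of_card_lt_card hcard
      simp only [Finset.mem_insert, Finset.mem_singleton, not_or] at hl
      exact ⟨l, hl⟩
    obtain ⟨l, hl⟩ := hl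
    have hci0 : c i ≠ 0 := by rw [hci]; exact hC0 _
    refine block_five (c i) (c j) (hc _) (hc _) (fun x : Rr => c x.val) (fun x => hc _) ?_ ⟨l, hl⟩ t ht
      (c i / P r) ?_ T (by omega) ?_
    · rw [← hprod, ← Equiv.prod_comp e c]
      rw [Fintype.prod_sum_type, Fin.prod_univ_two]
      rfl
    · have hcj' : c j = c i * P (r + 1) / P r := by
        rw [eq_div_iff hPr0, hstep]; ring
      rw [hcj']
      field_simp
      linear_combination (-(c i) ^ 2) * hte
    · rw [div_mul_eq_mul_div, hTprod, div_self hPr0]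


/-- From matrices to the group: the four case. -/
theorem four_of_diag {n : ℕ} (h : ∀ c : Fin n → ℂ, (∀ i, ‖c i‖ = 1) → ∏ i, c i = 1 →
    Four (diagonal c)) (A : Matrix (Fin n) (Fin n) ℂ) (hA : A ∈ specialUnitaryGroup (Fin n) ℂ) :
    Four A := by
  obtain ⟨hu, hdet⟩ := mem_specialUnitaryGroup_iff.mp hA
  obtain ⟨U, hU, d, hd⟩ := Pool.TH236.SU.unitary_diag A hu
  have hdn := Pool.TH236.SU.diag_norm A U hu hU d hd
  have hprod : ∏ i, d i = 1 := by
    rw [hd, det_mul, det_mul, mul_right_comm, ← det_mul, mem_unitaryGroup_iff.mp hU, det_one,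
      one_mul, det_diagonal] at hdet
    exact hdet
  rw [hd]
  exact (h d hdn hprod).conj hU

/-- From matrices to the group: the five case. -/
theorem five_of_diag {n : ℕ} (h : ∀ c : Fin n → ℂ, (∀ i, ‖c i‖ = 1) → ∏ i, c i = 1 →
    Five (diagonal c)) (A : Matrix (Fin n) (Fin n) ℂ) (hA : A ∈ specialUnitaryGroup (Fin n) ℂ) :
    Five A := by
  obtain ⟨hu, hdet⟩ := mem_specialUnitaryGroup_iff.mp hA
  obtain ⟨U, hU, d, hd⟩ := Pool.TH236.SU.unitary_diag A hu
  have hdn := Pool.TH236.SU.diag_norm A U hu hU d hd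
  have hprod : ∏ i, d i = 1 := by
    rw [hd, det_mul, det_mul, mul_right_comm, ← det_mul, mem_unitaryGroup_iff.mp hU, det_one,
      one_mul, det_diagonal] at hdet
    exact hdet
  rw [hd]
  exact (h d hdn hprod).conj hU

theorem four_diag {n : ℕ} (hn : 1 ≤ n) (h : n % 4 ≠ 2) (c : Fin n → ℂ) (hc : ∀ i, ‖c i‖ = 1)
    (hprod : ∏ i, c i = 1) : Four (diagonal c) := by
  let C : ℕ → ℂ := fun t => if h : t < n then c ⟨t, h⟩ else 1
  have e : (fun i : Fin n => C i) = c := by
    funext i; simp [C]
  have hC : ∀ t, ‖C t‖ = 1 := by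
    intro t
    by_cases ht : t < n
    · simp only [C, dif_pos ht]; exact hc _
    · simp only [C, dif_neg ht]; exact norm_one
  have hP : ∏ t ∈ Finset.range n, C t = 1 := by
    rw [Finset.prod_range]
    rw [← hprod]
    refine Finset.prod_congr rfl fun i _ => ?_
    simp [C]
  rw [← e]
  exact chain_four hn C hC hP (by omega)

theorem five_diag {n : ℕ} (hn : 3 ≤ n) (c : Fin n → ℂ) (hc : ∀ i, ‖c i‖ = 1)
    (hprod : ∏ i, c i = 1) : Five (diagonal c) := by
  by_cases h : n % 4 = 2
  · obtain ⟨k, rfl⟩ : ∃ k, n = 2 * k := ⟨n / 2, by omega⟩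
    exact five_even k (by omega) (by omega) c hc hprod
  · exact (four_diag (by omega) h c hc hprod).five

/-- an element of the group from `IsInv` -/
theorem lift_inv {n : ℕ} {M : Matrix (Fin n) (Fin n) ℂ} (h : IsInv M) :
    ∃ s : specialUnitaryGroup (Fin n) ℂ, s ^ 2 = 1 ∧ s.1 = M := by
  refine ⟨⟨M, mem_specialUnitaryGroup_iff.mpr ⟨h.1, h.2.1⟩⟩, ?_, rfl⟩
  apply Subtype.ext
  rw [pow_two]
  exact h.2.2

end Pool.Agent.X231.SUInv
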