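import Mathlib
set_option autoImplicit false
open scoped Pointwise

namespace Pool.Agent.X231.Oct

/-- The cyclic permutation matrices. -/
def cyc (g : Multiplicative (ZMod 3)) : Matrix (Fin 3) (Fin 3) ℤ :=
  fun i j => if (@id (ZMod 3) i) = (@id (ZMod 3) j) + Multiplicative.toAdd g then 1 else 0

def cycHom : Multiplicative (ZMod 3) →* Matrix (Fin 3) (Fin 3) ℤ where
  toFun := cyc
  map_one' := by decide
  map_mul' := by decide

def V : Finset (Fin 3 → ℤ) :=
  {![1,0,0], ![0,1,0], ![0,0,1], ![1,1,0], ![1,0,1], ![0,1,1]}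

theorem V_inv : ∀ g : Multiplicative (ZMod 3), ∀ v ∈ V, Matrix.mulVec (cyc g) v ∈ V := by
  decide

/-- the octahedron -/
def P : Set (Fin 3 → ℝ) :=
  convexHull ℝ ((fun v : Fin 3 → ℤ => fun j => ((v j : ℤ) : ℝ)) '' (V : Set (Fin 3 → ℤ)))

def H : Set (Fin 3 → ℝ) :=
  {x | (∀ i, 0 ≤ x i ∧ x i ≤ 1) ∧ 1 ≤ x 0 + x 1 + x 2 ∧ x 0 + x 1 + x 2 ≤ 2}

theorem H_convex : Convex ℝ H := by
  intro x hx y hy a b ha hb hab
  obtain ⟨hx1, hx2, hx3⟩ := hx
  obtain ⟨hy1, hy2, hy3⟩ := hy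
  refine ⟨fun i => ⟨?_, ?_⟩, ?_, ?_⟩
  · have h1 := (hx1 i).1
    have h2 := (hy1 i).1
    simp only [Pi.add_apply, Pi.smul_apply, smul_eq_mul]
    positivity
  · have h1 := (hx1 i).2
    have h2 := (hy1 i).2
    simp only [Pi.add_apply, Pi.smul_apply, smul_eq_mul]
    nlinarith
  · simp only [Pi.add_apply, Pi.smul_apply, smul_eq_mul]
    nlinarith
  · simp only [Pi.add_apply, Pi.smul_apply, smul_eq_mul]
    nlinarith

theorem V_ineq : ∀ v ∈ V, (∀ i, 0 ≤ v i ∧ v i ≤ 1) ∧ 1 ≤ v 0 + v 1 + v 2 ∧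
    v 0 + v 1 + v 2 ≤ 2 := by
  decide

theorem P_sub_H : P ⊆ H := by
  apply convexHull_min _ H_convex
  rintro _ ⟨v, hv, rfl⟩
  obtain ⟨h1, h2, h3⟩ := V_ineq v hv
  refine ⟨fun i => ⟨?_, ?_⟩, ?_, ?_⟩ <;> beta_reduce
  · exact_mod_cast (h1 i).1
  · exact_mod_cast (h1 i).2
  · exact_mod_cast h2
  · exact_mod_cast h3

theorem vmem (v : Fin 3 → ℤ) (hv : v ∈ V) : (fun j => ((v j : ℤ) : ℝ)) ∈ P :=
  subset_convexHull ℝ _ ⟨v, hv, rfl⟩

theorem H_sub_P : H ⊆ P := by
  rintro x ⟨h1, h2, h3⟩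
  set s := x 0 + x 1 + x 2 with hs
  set c : Fin 3 → ℝ := fun i => x i - (s - 1) with hc
  have hc0 : c 0 = x 0 - (s - 1) := rfl
  have hc1 : c 1 = x 1 - (s - 1) := rfl
  have hc2 : c 2 = x 2 - (s - 1) := rfl
  set r := 2 - s - (max (c 0) 0 + max (c 1) 0 + max (c 2) 0) with hr
  have hr0 : 0 ≤ r := by
    have a0 := h1 0
    have a1 := h1 1
    have a2 := h1 2
    rcases max_cases (c 0) 0 with ⟨e0, f0⟩ | ⟨e0, f0⟩ <;>
    rcases max_cases (c 1) 0 with ⟨e1, f1⟩ | ⟨e1, f1⟩ <;>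
    rcases max_cases (c 2) 0 with ⟨e2, f2⟩ | ⟨e2, f2⟩ <;>
    · rw [hr, e0, e1, e2]
      linarith
  let w : Fin 6 → ℝ := ![max (c 0) 0 + r, max (c 1) 0, max (c 2) 0,
    max (c 2) 0 - c 2, max (c 1) 0 - c 1, max (c 0) 0 + r - c 0]
  let z : Fin 6 → (Fin 3 → ℤ) := ![![1,0,0], ![0,1,0], ![0,0,1], ![1,1,0], ![1,0,1], ![0,1,1]]
  have hm := (convex_convexHull ℝ ((fun v : Fin 3 → ℤ => fun j => ((v j : ℤ) : ℝ)) ''
    (V : Set (Fin 3 → ℤ)))).sum_mem (t := Finset.univ) (w := w)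
    (z := fun i => fun j => ((z i j : ℤ) : ℝ)) ?_ ?_ ?_
  · have hx : x = ∑ i : Fin 6, w i • (fun j => ((z i j : ℤ) : ℝ)) := ?_
    · rw [hx]; exact hm
    funext j
    simp only [Finset.sum_apply, Pi.smul_apply, smul_eq_mul, Fin.sum_univ_six, w, z]
    fin_cases j
    · simp [Matrix.cons_val_one, Matrix.cons_val_zero]
      linarith
    · simp [Matrix.cons_val_one, Matrix.cons_val_zero]
      linarith
    · simp [Matrix.cons_val_one, Matrix.cons_val_zero]
      linarith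
  · intro i _
    have m0 := le_max_left (c 0) 0
    have m0' := le_max_right (c 0) 0
    have m1 := le_max_left (c 1) 0
    have m1' := le_max_right (c 1) 0
    have m2 := le_max_left (c 2) 0
    have m2' := le_max_right (c 2) 0
    fin_cases i <;> simp [w] <;> linarith
  · simp only [Fin.sum_univ_six, w]
    simp [Matrix.cons_val_one, Matrix.cons_val_zero]
    linarith
  · intro i _
    refine subset_convexHull ℝ _ ⟨z i, ?_, rfl⟩
    fin_cases i <;> simp [z, V]

theorem P_eq : P = H := le_antisymm P_sub_H H_sub_P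

theorem mem_smul_P (m : ℕ) (x : Fin 3 → ℤ) :
    (fun j => ((x j : ℤ) : ℝ)) ∈ (m : ℝ) • P ↔
      ((∀ i, 0 ≤ x i ∧ x i ≤ m) ∧ (m : ℤ) ≤ x 0 + x 1 + x 2 ∧ x 0 + x 1 + x 2 ≤ 2 * m) := by
  rcases Nat.eq_zero_or_pos m with rfl | hm
  · rw [Nat.cast_zero, Set.zero_smul_set ⟨_, vmem ![1,0,0] (by decide)⟩]
    simp only [Set.mem_zero]
    constructor
    · intro h
      have h' : ∀ j, x j = 0 := fun j => by
        have := congrFun h j
        simpa using this
      simp [h']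
    · rintro ⟨h, -⟩
      funext j
      have := h j
      have : x j = 0 := by simp at this; omega
      simp [this]
  · have hm' : (0 : ℝ) < m := by exact_mod_cast hm
    rw [Set.mem_smul_set_iff_inv_smul_mem₀ hm'.ne', P_eq]
    simp only [H, Set.mem_ofPred_eq, Pi.smul_apply, smul_eq_mul]
    rw [← mul_add, ← mul_add]
    constructor
    · rintro ⟨h1, h2, h3⟩
      refine ⟨fun i => ?_, ?_, ?_⟩
      · have := h1 i
        obtain ⟨a, b⟩ := this
        rw [inv_mul_le_iff₀ hm'] at b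
        have a' := (mul_nonneg_iff_of_pos_left (inv_pos.mpr hm')).1 a
        constructor
        · exact_mod_cast a'
        · rw [mul_one] at b
          exact_mod_cast b
      · rw [le_inv_mul_iff₀ hm', mul_one] at h2
        exact_mod_cast h2
      · rw [inv_mul_le_iff₀ hm', mul_comm] at h3
        exact_mod_cast h3
    · rintro ⟨h1, h2, h3⟩
      refine ⟨fun i => ?_, ?_, ?_⟩
      · obtain ⟨a, b⟩ := h1 i
        rw [inv_mul_le_iff₀ hm', mul_nonneg_iff_of_pos_left (inv_pos.mpr hm'), mul_one]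
        exact ⟨by exact_mod_cast a, by exact_mod_cast b⟩
      · rw [le_inv_mul_iff₀ hm', mul_one]
        exact_mod_cast h2
      · rw [inv_mul_le_iff₀ hm', mul_comm]
        exact_mod_cast h3

/-- index finset of the lattice points -/
def T (m : ℕ) : Finset (Σ _ : ℕ, Σ _ : ℕ, ℕ) :=
  (Finset.range (m+1)).sigma fun a => (Finset.range (m+1)).sigma fun b =>
    Finset.Icc (m - (a + b)) (min m (2 * m - (a + b)))

def toVec (t : Σ _ : ℕ, Σ _ : ℕ, ℕ) : Fin 3 → ℤ := ![(t.1 : ℤ), (t.2.1 : ℤ), (t.2.2 : ℤ)]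

theorem toVec_inj : Function.Injective toVec := by
  rintro ⟨a, b, c⟩ ⟨a', b', c'⟩ h
  have h0 := congrFun h 0
  have h1 := congrFun h 1
  have h2 := congrFun h 2
  simp [toVec] at h0 h1
  have h2' : (c : ℤ) = c' := h2
  have : c = c' := by exact_mod_cast h2'
  subst h0 h1 this
  rfl

theorem set_eq (m : ℕ) : {x : Fin 3 → ℤ | (∀ i, 0 ≤ x i ∧ x i ≤ m) ∧ (m : ℤ) ≤ x 0 + x 1 + x 2 ∧
    x 0 + x 1 + x 2 ≤ 2 * m} = toVec '' (T m : Set (Σ _ : ℕ, Σ _ : ℕ, ℕ)) := by
  ext x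
  constructor
  · rintro ⟨h1, h2, h3⟩
    have a0 := h1 0
    have a1 := h1 1
    have a2 := h1 2
    refine ⟨⟨(x 0).toNat, (x 1).toNat, (x 2).toNat⟩, ?_, ?_⟩
    · simp only [T, Finset.coe_sigma, Set.mem_sigma_iff, Finset.mem_coe, Finset.mem_range,
        Finset.mem_Icc]
      omega
    · funext i
      fin_cases i
      · show (((x 0).toNat : ℕ) : ℤ) = x 0
        omega
      · show (((x 1).toNat : ℕ) : ℤ) = x 1
        omega
      · show (((x 2).toNat : ℕ) : ℤ) = x 2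
        omega
  · rintro ⟨⟨a, b, c⟩, ht, rfl⟩
    simp only [T, Finset.coe_sigma, Set.mem_sigma_iff, Finset.mem_coe, Finset.mem_range,
        Finset.mem_Icc] at ht
    refine ⟨fun i => ?_, ?_, ?_⟩
    · fin_cases i
      · show 0 ≤ (a : ℤ) ∧ (a : ℤ) ≤ m
        omega
      · show 0 ≤ (b : ℤ) ∧ (b : ℤ) ≤ m
        omega
      · show 0 ≤ (c : ℤ) ∧ (c : ℤ) ≤ m
        omega
    · show (m : ℤ) ≤ a + b + c
      omega
    · show (a : ℤ) + b + c ≤ 2 * m
      omega

theorem sum_up (c : ℤ) (n : ℕ) : 2 * ∑ j ∈ Finset.range n, (c + (j : ℤ)) = 2 * c * n + n * (n - 1) := by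
  induction n with
  | zero => simp
  | succ n ih => rw [Finset.sum_range_succ, mul_add, ih]; push_cast; ring

theorem sum_down (c : ℤ) (n : ℕ) : 2 * ∑ j ∈ Finset.range n, (c - (j : ℤ)) = 2 * c * n - n * (n - 1) := by
  induction n with
  | zero => simp
  | succ n ih => rw [Finset.sum_range_succ, mul_add, ih]; push_cast; ring

theorem inner (a k : ℕ) :
    2 * (∑ b ∈ Finset.range (a + k + 1),
      (((Finset.Icc ((a + k) - (a + b)) (min (a + k) (2 * (a + k) - (a + b)))).card : ℕ) : ℤ))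
      = (a + k + 1) * (a + k + 2) + 2 * a * k := by
  have e : a + k + 1 = (k + 1) + a := by ring
  rw [e, Finset.sum_range_add]
  have s1 : ∑ b ∈ Finset.range (k + 1),
      (((Finset.Icc ((a + k) - (a + b)) (min (a + k) (2 * (a + k) - (a + b)))).card : ℕ) : ℤ)
      = ∑ b ∈ Finset.range (k + 1), (((a : ℤ) + 1) + (b : ℤ)) := by
    apply Finset.sum_congr rfl
    intro b hb
    rw [Finset.mem_range] at hb
    rw [Nat.card_Icc]
    omega
  have s2 : ∑ b ∈ Finset.range a,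
      (((Finset.Icc ((a + k) - (a + (k + 1 + b))) (min (a + k) (2 * (a + k) - (a + (k + 1 + b))))).card : ℕ) : ℤ)
      = ∑ b ∈ Finset.range a, (((a : ℤ) + k) - (b : ℤ)) := by
    apply Finset.sum_congr rfl
    intro b hb
    rw [Finset.mem_range] at hb
    rw [Nat.card_Icc]
    omega
  rw [s1, s2, mul_add, sum_up, sum_down]
  push_cast
  ring

theorem outer (m : ℤ) (n : ℕ) :
    3 * ∑ a ∈ Finset.range n, ((m + 1) * (m + 2) + 2 * (a : ℤ) * (m - a)) =
      3 * n * ((m + 1) * (m + 2)) + 3 * m * n * (n - 1) - n * (n - 1) * (2 * n - 1) := by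
  induction n with
  | zero => simp
  | succ n ih => rw [Finset.sum_range_succ, mul_add, ih]; push_cast; ring

theorem count (m : ℕ) : 3 * ((Set.ncard {x : Fin 3 → ℤ | (∀ i, 0 ≤ x i ∧ x i ≤ m) ∧
    (m : ℤ) ≤ x 0 + x 1 + x 2 ∧ x 0 + x 1 + x 2 ≤ 2 * m} : ℕ) : ℤ) =
      (m + 1) * (2 * m ^ 2 + 4 * m + 3) := by
  rw [set_eq, Set.ncard_image_of_injective _ toVec_inj, Set.ncard_coe_finset, T, Finset.card_sigma]
  have h1 : ∀ a ∈ Finset.range (m + 1), 2 * ((((Finset.range (m+1)).sigma fun b =>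
      Finset.Icc (m - (a + b)) (min m (2 * m - (a + b)))).card : ℕ) : ℤ) =
      ((m : ℤ) + 1) * (m + 2) + 2 * (a : ℤ) * (m - a) := by
    intro a ha
    rw [Finset.mem_range] at ha
    obtain ⟨k, rfl⟩ : ∃ k, m = a + k := ⟨m - a, by omega⟩
    rw [Finset.card_sigma]
    push_cast
    have := inner a k
    rw [this]
    ring
  have h2 := Finset.sum_congr rfl h1
  rw [← Finset.mul_sum] at h2
  have h3 := outer m (m + 1)
  rw [← h2] at h3
  push_cast at h3 ⊢
  linarith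

theorem setDiag_ncard (m : ℕ) : Set.ncard {x : Fin 3 → ℤ | ((∀ i, 0 ≤ x i ∧ x i ≤ m) ∧
    (m : ℤ) ≤ x 0 + x 1 + x 2 ∧ x 0 + x 1 + x 2 ≤ 2 * m) ∧ x 0 = x 1 ∧ x 1 = x 2} =
      2 * m / 3 + 1 - (m + 2) / 3 := by
  have : {x : Fin 3 → ℤ | ((∀ i, 0 ≤ x i ∧ x i ≤ m) ∧
    (m : ℤ) ≤ x 0 + x 1 + x 2 ∧ x 0 + x 1 + x 2 ≤ 2 * m) ∧ x 0 = x 1 ∧ x 1 = x 2} =
    (fun t : ℕ => (fun _ => (t : ℤ) : Fin 3 → ℤ)) '' (Finset.Icc ((m + 2) / 3) (2 * m / 3) : Set ℕ) := by
    ext x
    constructor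
    · rintro ⟨⟨h1, h2, h3⟩, h4, h5⟩
      have a0 := h1 0
      refine ⟨(x 0).toNat, ?_, ?_⟩
      · simp only [Finset.coe_Icc, Set.mem_Icc]
        omega
      · funext i
        have : (((x 0).toNat : ℕ) : ℤ) = x 0 := by omega
        fin_cases i
        · simpa using this
        · simpa [h4] using this
        · simpa [h4, h5] using this
    · rintro ⟨t, ht, rfl⟩
      simp only [Finset.coe_Icc, Set.mem_Icc] at ht
      refine ⟨⟨fun i => ?_, ?_, ?_⟩, rfl, rfl⟩
      · beta_reduce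
        omega
      · beta_reduce
        omega
      · beta_reduce
        omega
  rw [this, Set.ncard_image_of_injective, Set.ncard_coe_finset, Nat.card_Icc]
  intro a b hab
  have := congrFun hab 0
  simpa using this

theorem ser1 (a : ℕ → ℤ) (ha : ∀ m, 3 * a m = (m + 1) * (2 * m ^ 2 + 4 * m + 3)) :
    PowerSeries.mk a * (1 - PowerSeries.X) * (1 - PowerSeries.X) ^ 3 =
      1 + 2 * PowerSeries.X + PowerSeries.X ^ 2 := by
  have h0 := ha 0
  have h1 := ha 1
  have h2 := ha 2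
  have h3 := ha 3
  norm_num at h0 h1 h2 h3
  have e : PowerSeries.mk a * (1 - PowerSeries.X) * (1 - PowerSeries.X) ^ 3 =
    PowerSeries.mk a - 4 * (PowerSeries.mk a * PowerSeries.X ^ 1) + 6 * (PowerSeries.mk a * PowerSeries.X ^ 2)
      - 4 * (PowerSeries.mk a * PowerSeries.X ^ 3) + (PowerSeries.mk a * PowerSeries.X ^ 4) := by ring
  rw [e]
  ext n
  have c4 : ∀ f : PowerSeries ℤ, PowerSeries.coeff n (4 * f) = 4 * PowerSeries.coeff n f := fun f => by
    have : (4 : PowerSeries ℤ) = PowerSeries.C (4 : ℤ) := by simp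
    rw [this, PowerSeries.coeff_C_mul]
  have c6 : ∀ f : PowerSeries ℤ, PowerSeries.coeff n (6 * f) = 6 * PowerSeries.coeff n f := fun f => by
    have : (6 : PowerSeries ℤ) = PowerSeries.C (6 : ℤ) := by simp
    rw [this, PowerSeries.coeff_C_mul]
  have c2 : ∀ f : PowerSeries ℤ, PowerSeries.coeff n (2 * f) = 2 * PowerSeries.coeff n f := fun f => by
    have : (2 : PowerSeries ℤ) = PowerSeries.C (2 : ℤ) := by simp
    rw [this, PowerSeries.coeff_C_mul]
  simp only [map_add, map_sub, c4, c6, c2, PowerSeries.coeff_mul_X_pow', PowerSeries.coeff_mk,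
    PowerSeries.coeff_one, PowerSeries.coeff_X, PowerSeries.coeff_X_pow]
  match n with
  | 0 => simp; linarith
  | 1 => simp; linarith
  | 2 => simp; linarith
  | 3 => simp; linarith
  | n + 4 =>
    have g0 := ha n
    have g1 := ha (n + 1)
    have g2 := ha (n + 2)
    have g3 := ha (n + 3)
    have g4 := ha (n + 4)
    push_cast at g0 g1 g2 g3 g4
    have i1 : n + 4 - 1 = n + 3 := by omega
    have i2 : n + 4 - 2 = n + 2 := by omega
    have i3 : n + 4 - 3 = n + 1 := by omega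
    have i4 : n + 4 - 4 = n := by omega
    simp [i1, i2, i3, i4]
    linarith

theorem ser2 (a : ℕ → ℤ) (ha : ∀ m, a m = ((2 * m / 3 + 1 - (m + 2) / 3 : ℕ) : ℤ)) :
    PowerSeries.mk a * (1 - PowerSeries.X) * (1 - PowerSeries.X ^ 3) =
      1 - PowerSeries.X + PowerSeries.X ^ 2 := by
  have h0 := ha 0
  have h1 := ha 1
  have h2 := ha 2
  have h3 := ha 3
  norm_num at h0 h1 h2 h3
  have e : PowerSeries.mk a * (1 - PowerSeries.X) * (1 - PowerSeries.X ^ 3) =
    PowerSeries.mk a - (PowerSeries.mk a * PowerSeries.X ^ 1) - (PowerSeries.mk a * PowerSeries.X ^ 3)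
      + (PowerSeries.mk a * PowerSeries.X ^ 4) := by ring
  rw [e]
  ext n
  simp only [map_add, map_sub, PowerSeries.coeff_mul_X_pow', PowerSeries.coeff_mk,
    PowerSeries.coeff_one, PowerSeries.coeff_X, PowerSeries.coeff_X_pow]
  match n with
  | 0 => simp; linarith
  | 1 => simp; linarith
  | 2 => simp; linarith
  | 3 => simp; linarith
  | n + 4 =>
    have g0 := ha n
    have g1 := ha (n + 1)
    have g3 := ha (n + 3)
    have g4 := ha (n + 4)
    have i1 : n + 4 - 1 = n + 3 := by omega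
    have i3 : n + 4 - 3 = n + 1 := by omega
    have i4 : n + 4 - 4 = n := by omega
    simp [i1, i3, i4]
    have q1 : 2 * (n + 4) / 3 = 2 * (n + 1) / 3 + 2 := by omega
    have q2 : (n + 4 + 2) / 3 = n / 3 + 2 := by omega
    have q3 : 2 * (n + 3) / 3 = 2 * n / 3 + 2 := by omega
    have q4 : (n + 3 + 2) / 3 = (n + 2) / 3 + 1 := by omega
    have q5 : (n + 1 + 2) / 3 = n / 3 + 1 := by omega
    rw [q1, q2] at g4
    rw [q3, q4] at g3
    rw [q5] at g1
    omega

theorem cyc_fix1 (x : Fin 3 → ℤ) : Matrix.mulVec (cyc (Multiplicative.ofAdd 1)) x = x ↔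
    x 0 = x 1 ∧ x 1 = x 2 := by
  have h0 : Matrix.mulVec (cyc (Multiplicative.ofAdd 1)) x 0 = x 2 := by
    simp only [Matrix.mulVec, dotProduct, Fin.sum_univ_three]
    rw [show cyc (Multiplicative.ofAdd 1) 0 0 = 0 by decide,
      show cyc (Multiplicative.ofAdd 1) 0 1 = 0 by decide,
      show cyc (Multiplicative.ofAdd 1) 0 2 = 1 by decide]
    ring
  have h1 : Matrix.mulVec (cyc (Multiplicative.ofAdd 1)) x 1 = x 0 := by
    simp only [Matrix.mulVec, dotProduct, Fin.sum_univ_three]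
    rw [show cyc (Multiplicative.ofAdd 1) 1 0 = 1 by decide,
      show cyc (Multiplicative.ofAdd 1) 1 1 = 0 by decide,
      show cyc (Multiplicative.ofAdd 1) 1 2 = 0 by decide]
    ring
  have h2 : Matrix.mulVec (cyc (Multiplicative.ofAdd 1)) x 2 = x 1 := by
    simp only [Matrix.mulVec, dotProduct, Fin.sum_univ_three]
    rw [show cyc (Multiplicative.ofAdd 1) 2 0 = 0 by decide,
      show cyc (Multiplicative.ofAdd 1) 2 1 = 1 by decide,
      show cyc (Multiplicative.ofAdd 1) 2 2 = 0 by decide]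
    ring
  constructor
  · intro h
    rw [h] at h0 h1 h2
    exact ⟨h1.symm, h2.symm⟩
  · rintro ⟨e1, e2⟩
    funext i
    fin_cases i
    · show Matrix.mulVec (cyc (Multiplicative.ofAdd 1)) x 0 = x 0
      rw [h0, e1, e2]
    · show Matrix.mulVec (cyc (Multiplicative.ofAdd 1)) x 1 = x 1
      rw [h1, e1]
    · show Matrix.mulVec (cyc (Multiplicative.ofAdd 1)) x 2 = x 2
      rw [h2, e2]

theorem cyc_fix2 (x : Fin 3 → ℤ) : Matrix.mulVec (cyc (Multiplicative.ofAdd 2)) x = x ↔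
    x 0 = x 1 ∧ x 1 = x 2 := by
  have h0 : Matrix.mulVec (cyc (Multiplicative.ofAdd 2)) x 0 = x 1 := by
    simp only [Matrix.mulVec, dotProduct, Fin.sum_univ_three]
    rw [show cyc (Multiplicative.ofAdd 2) 0 0 = 0 by decide,
      show cyc (Multiplicative.ofAdd 2) 0 1 = 1 by decide,
      show cyc (Multiplicative.ofAdd 2) 0 2 = 0 by decide]
    ring
  have h1 : Matrix.mulVec (cyc (Multiplicative.ofAdd 2)) x 1 = x 2 := by
    simp only [Matrix.mulVec, dotProduct, Fin.sum_univ_three]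
    rw [show cyc (Multiplicative.ofAdd 2) 1 0 = 0 by decide,
      show cyc (Multiplicative.ofAdd 2) 1 1 = 0 by decide,
      show cyc (Multiplicative.ofAdd 2) 1 2 = 1 by decide]
    ring
  have h2 : Matrix.mulVec (cyc (Multiplicative.ofAdd 2)) x 2 = x 0 := by
    simp only [Matrix.mulVec, dotProduct, Fin.sum_univ_three]
    rw [show cyc (Multiplicative.ofAdd 2) 2 0 = 1 by decide,
      show cyc (Multiplicative.ofAdd 2) 2 1 = 0 by decide,
      show cyc (Multiplicative.ofAdd 2) 2 2 = 0 by decide]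
    ring
  constructor
  · intro h
    rw [h] at h0 h1 h2
    exact ⟨h0, h1⟩
  · rintro ⟨e1, e2⟩
    funext i
    fin_cases i
    · show Matrix.mulVec (cyc (Multiplicative.ofAdd 2)) x 0 = x 0
      rw [h0, e1]
    · show Matrix.mulVec (cyc (Multiplicative.ofAdd 2)) x 1 = x 1
      rw [h1, e2]
    · show Matrix.mulVec (cyc (Multiplicative.ofAdd 2)) x 2 = x 2
      rw [h2, e1, e2]

/-- the determinant in the frozen statement -/
noncomputable def detP (g : Multiplicative (ZMod 3)) : Polynomial ℤ :=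
  Matrix.det (1 - (Polynomial.X : Polynomial ℤ) • (cyc g).map Polynomial.C)

theorem det0 : detP 1 = (1 - Polynomial.X) ^ 3 := by
  have h : cyc 1 = 1 := by decide
  rw [detP, h, Matrix.det_fin_three]
  simp
  ring

theorem det1 : detP (Multiplicative.ofAdd 1) = 1 - Polynomial.X ^ 3 := by
  have h : cyc (Multiplicative.ofAdd 1) = !![0,0,1;1,0,0;0,1,0] := by decide
  rw [detP, h, Matrix.det_fin_three]
  simp
  ring

theorem det2 : detP (Multiplicative.ofAdd 2) = 1 - Polynomial.X ^ 3 := by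
  have h : cyc (Multiplicative.ofAdd 2) = !![0,1,0;0,0,1;1,0,0] := by decide
  rw [detP, h, Matrix.det_fin_three]
  simp
  ring

/-- the coefficients -/
noncomputable def cnt (g : Multiplicative (ZMod 3)) (m : ℕ) : ℤ :=
  ((Set.ncard {x : Fin 3 → ℤ | (fun j => ((x j : ℤ) : ℝ)) ∈ (m : ℝ) • P ∧
    Matrix.mulVec (cyc g) x = x} : ℕ) : ℤ)

noncomputable def Phi (g : Multiplicative (ZMod 3)) : PowerSeries ℤ :=
  PowerSeries.mk (cnt g) * (1 - PowerSeries.X) * ((detP g : Polynomial ℤ) : PowerSeries ℤ)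

theorem Phi0 : Phi 1 = 1 + 2 * PowerSeries.X + PowerSeries.X ^ 2 := by
  rw [Phi, det0]
  push_cast
  apply ser1
  intro m
  rw [← count m, cnt]
  have h : cyc 1 = 1 := by decide
  simp only [h, Matrix.one_mulVec, and_true, mem_smul_P]

theorem Phi1 : Phi (Multiplicative.ofAdd 1) = 1 - PowerSeries.X + PowerSeries.X ^ 2 := by
  rw [Phi, det1]
  push_cast
  apply ser2
  intro m
  rw [← setDiag_ncard m, cnt]
  simp only [cyc_fix1, mem_smul_P]

theorem Phi2 : Phi (Multiplicative.ofAdd 2) = 1 - PowerSeries.X + PowerSeries.X ^ 2 := by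
  rw [Phi, det2]
  push_cast
  apply ser2
  intro m
  rw [← setDiag_ncard m, cnt]
  simp only [cyc_fix2, mem_smul_P]

theorem span_top : vectorSpan ℝ P = ⊤ := by
  rw [eq_top_iff]
  intro x _
  have hd : ∀ u ∈ V, ∀ v ∈ V, (fun j => ((u j : ℤ) : ℝ)) - (fun j => ((v j : ℤ) : ℝ)) ∈ vectorSpan ℝ P :=
    fun u hu v hv => vsub_mem_vectorSpan ℝ (vmem u hu) (vmem v hv)
  have h0 := hd ![1,0,1] (by decide) ![0,0,1] (by decide)
  have h1 := hd ![0,1,1] (by decide) ![0,0,1] (by decide)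
  have h2 := hd ![1,0,1] (by decide) ![1,0,0] (by decide)
  have := (vectorSpan ℝ P).add_mem ((vectorSpan ℝ P).add_mem
    ((vectorSpan ℝ P).smul_mem (x 0) h0) ((vectorSpan ℝ P).smul_mem (x 1) h1))
    ((vectorSpan ℝ P).smul_mem (x 2) h2)
  convert this using 1
  funext j
  fin_cases j <;> simp

end Pool.Agent.X231.Oct
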