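import Mathlib
import Pool.Agent.X172.GR.Stm

set_option autoImplicit false

namespace Pool.Agent.X231.GRC

open Pool.Agent.X172.GR

theorem rd_iff (T : ℕ → Fin 6) (w : List Ltr) :
    ∀ i, Rd T i w ↔ ∀ j, j < w.length → ∃ a, w[j]? = some a ∧ a.1 = T (i + j) := by
  induction w with
  | nil => intro i; simp [Rd]
  | cons a w ih =>
    intro i
    simp only [Rd, ih]
    constructor
    · rintro ⟨h1, h2⟩ j hj
      cases j with
      | zero => exact ⟨a, by simp, by simpa using h1⟩
      | succ j =>
        obtain ⟨b, hb, hb'⟩ := h2 j (by simpa using hj)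
        refine ⟨b, by simpa using hb, ?_⟩
        rw [hb']; congr 1; omega
    · intro h
      refine ⟨?_, ?_⟩
      · obtain ⟨b, hb, hb'⟩ := h 0 (by simp)
        simp at hb
        subst hb
        simpa using hb'
      · intro j hj
        obtain ⟨b, hb, hb'⟩ := h (j + 1) (by simpa using hj)
        refine ⟨b, by simpa using hb, ?_⟩
        rw [hb']; congr 1; omega

theorem eqT {T : ℕ → Fin 6} {w w' : List Ltr} {i i' j j' : ℕ} (h : Rd T i w) (h' : Rd T i' w')
    (hj : j < w.length) (hj' : j' < w'.length) (he : w[j]? = w'[j']?) : T (i + j) = T (i' + j') := by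
  obtain ⟨a, ha, ha'⟩ := (rd_iff T w i).1 h j hj
  obtain ⟨b, hb, hb'⟩ := (rd_iff T w' i').1 h' j' hj'
  rw [ha, hb] at he
  have : a = b := by simpa using he
  rw [← ha', ← hb', this]

theorem rd_prefix {T : ℕ → Fin 6} {p w : List Ltr} (hp : p <+: w) (h : Readable T w) :
    Readable T p := by
  obtain ⟨r, rfl⟩ := hp
  obtain ⟨i, hi⟩ := h
  refine ⟨i, (rd_iff T p i).2 ?_⟩
  intro j hj
  obtain ⟨a, ha, ha'⟩ := (rd_iff T _ i).1 hi j (by simp; omega)
  rw [List.getElem?_append_left hj] at ha
  exact ⟨a, ha, ha'⟩

theorem rd_suffix {T : ℕ → Fin 6} {p w : List Ltr} (hp : p <:+ w) (h : Readable T w) :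
    Readable T p := by
  obtain ⟨r, rfl⟩ := hp
  obtain ⟨i, hi⟩ := h
  refine ⟨i + r.length, (rd_iff T p _).2 ?_⟩
  intro j hj
  obtain ⟨a, ha, ha'⟩ := (rd_iff T _ i).1 hi (r.length + j) (by simp; omega)
  rw [List.getElem?_append_right (by omega)] at ha
  refine ⟨a, ?_, ?_⟩
  · rw [← ha]; congr 1; omega
  · rw [ha']; congr 1; omega

theorem ne5 {n : ℕ} {T : ℕ → Fin 6} (hT : Ty n T) {w : List Ltr} (h : Readable T w) {a : Ltr}
    (ha : a ∈ w) : a.1 ≠ 5 := by
  obtain ⟨i, hi⟩ := h
  obtain ⟨j, hj, he⟩ := List.getElem_of_mem ha
  obtain ⟨b, hb, hb'⟩ := (rd_iff T w i).1 hi j hj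
  rw [List.getElem?_eq_getElem hj] at hb
  have : a = b := by rw [← he]; simpa using hb
  rw [this, hb']
  exact hT.ne5 _

/-- the start index is unique modulo `n` -/
theorem idx {n : ℕ} {T : ℕ → Fin 6} (hn : 4 ≤ n) (hT : Ty n T) {a b : ℕ}
    (h : ∀ j, j < n → T (a + j) = T (b + j)) : a % n = b % n := by
  have hn0 : 0 < n := by omega
  have hlt := Nat.mod_lt a hn0
  have h1 : n ∣ (a + (n - 1 - a % n)) + 1 := by
    have := Nat.div_add_mod a n
    refine ⟨a / n + 1, ?_⟩
    rw [Nat.mul_add, Nat.mul_one]
    omega
  have h2 := (hT.hash _).2 h1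
  rw [h _ (by omega)] at h2
  have h3 := (hT.hash _).1 h2
  have h4 : (a + (n - 1 - a % n) + 1) ≡ (b + (n - 1 - a % n) + 1) [MOD n] := by
    rw [Nat.ModEq, Nat.mod_eq_zero_of_dvd h1, Nat.mod_eq_zero_of_dvd h3]
  have h5 : a ≡ b [MOD n] := by
    have := Nat.ModEq.add_right_cancel' 1 h4
    exact Nat.ModEq.add_right_cancel' _ this
  exact h5

/-- symmetric conclusion -/
def Con (n : ℕ) (s t : List Ltr) : Prop :=
  s = t ∨ (n ≤ s.length ∧ n ≤ t.length ∧ (∀ j, j < n → s[j]? = t[j]?) ∧
    (∀ j, j < n → s[s.length - n + j]? = t[t.length - n + j]?) ∧ s.length % n = t.length % n)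

theorem Con.symm {n : ℕ} {s t : List Ltr} (h : Con n s t) : Con n t s := by
  rcases h with h | ⟨h1, h2, h3, h4, h5⟩
  · exact Or.inl h.symm
  · exact Or.inr ⟨h2, h1, fun j hj => (h3 j hj).symm, fun j hj => (h4 j hj).symm, h5.symm⟩

theorem core {n : ℕ} {T : ℕ → Fin 6} (hn : 4 ≤ n) (hT : Ty n T) {s t : List Ltr} (hs : s ≠ [])
    {a b : ℕ} (ha : Rd T a s) (hb : Rd T b t) (hst : s.length ≤ t.length)
    (hh : ∀ j, (j < min n (t.length + 1) ∨ s.length + t.length ≤ j + min n (t.length + 1)) →
      (s ++ t)[j]? = (t ++ s)[j]?) : Con n s t := by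
  have hs0 : 0 < s.length := List.length_pos_iff.2 hs
  have hnd : ∀ q, 0 < q → q < n → ¬ n ∣ q := fun q h1 h2 h3 => by
    have := Nat.le_of_dvd h1 h3; omega
  -- relation A
  have hA : ∀ j, s.length + j < t.length → s.length + j < min n (t.length + 1) →
      T (b + j) = T (b + s.length + j) := by
    intro j h1 h2
    have h := hh (s.length + j) (Or.inl h2)
    rw [List.getElem?_append_right (by omega), List.getElem?_append_left h1] at h
    have := eqT hb hb (j := s.length + j - s.length) (j' := s.length + j) (by omega) h1 h
    rw [show b + (s.length + j - s.length) = b + j by omega,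
      show b + (s.length + j) = b + s.length + j by omega] at this
    exact this
  rcases Nat.lt_or_ge t.length n with hlt | hge
  · have hK : min n (t.length + 1) = t.length + 1 := by omega
    rw [hK] at hh hA
    have hall : ∀ j, (s ++ t)[j]? = (t ++ s)[j]? := fun j => hh j (by omega)
    rcases Nat.lt_or_ge s.length t.length with hl | hl
    · exfalso
      have hB : ∀ j, j < s.length → T (a + j) = T (b + j) := by
        intro j hj
        have h := hall j
        rw [List.getElem?_append_left hj, List.getElem?_append_left (by omega)] at h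
        exact eqT ha hb hj (by omega) h
      have hC : ∀ j, j < s.length → T (a + j) = T (b + (t.length - s.length) + j) := by
        intro j hj
        have h := hall (t.length + j)
        rw [List.getElem?_append_right (by omega), List.getElem?_append_right (by omega)] at h
        have := eqT hb ha (j := t.length + j - s.length) (j' := t.length + j - t.length) (by omega)
          (by omega) h
        rw [show a + (t.length + j - t.length) = a + j by omega,
          show b + (t.length + j - s.length) = b + (t.length - s.length) + j by omega] at this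
        exact this.symm
      rcases Nat.lt_or_ge s.length (t.length - s.length) with h | h
      · obtain ⟨j, hj, hne⟩ := hT.sqf b s.length hs0 (hnd _ hs0 (by omega))
        exact hne (hA j (by omega) (by omega))
      · obtain ⟨j, hj, hne⟩ := hT.sqf b (t.length - s.length) (by omega) (hnd _ (by omega) (by omega))
        apply hne
        rw [← hB j (by omega), hC j (by omega)]
    · left
      have hl' : s.length = t.length := by omega
      apply List.ext_getElem?
      intro j
      rcases Nat.lt_or_ge j s.length with hj | hj
      · have h := hall j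
        rw [List.getElem?_append_left hj, List.getElem?_append_left (by omega)] at h
        exact h
      · rw [List.getElem?_eq_none (by omega), List.getElem?_eq_none (by omega)]
  · have hK : min n (t.length + 1) = n := by omega
    rw [hK] at hh hA
    rcases Nat.lt_or_ge s.length n with hlt | hge'
    · exfalso
      obtain ⟨j, hj, hne⟩ := hT.sqf (b + s.length) (n - s.length) (by omega) (hnd _ (by omega) (by omega))
      apply hne
      rw [← hA j (by omega) (by omega), show b + s.length + (n - s.length) + j = b + j + n by omega,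
        hT.per]
    · right
      have h1 : ∀ j, j < n → s[j]? = t[j]? := by
        intro j hj
        have h := hh j (Or.inl hj)
        rw [List.getElem?_append_left (by omega), List.getElem?_append_left (by omega)] at h
        exact h
      have h2 : ∀ j, j < n → s[s.length - n + j]? = t[t.length - n + j]? := by
        intro j hj
        have h := hh (s.length + t.length - n + j) (Or.inr (by omega))
        rw [List.getElem?_append_right (by omega), List.getElem?_append_right (by omega)] at h
        rw [show s.length + t.length - n + j - s.length = t.length - n + j by omega,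
          show s.length + t.length - n + j - t.length = s.length - n + j by omega] at h
        exact h.symm
      refine ⟨hge', hge, h1, h2, ?_⟩
      have e1 := idx hn hT (a := a) (b := b) fun j hj =>
        eqT ha hb (by omega) (by omega) (h1 j hj)
      have e2 := idx hn hT (a := a + (s.length - n)) (b := b + (t.length - n)) fun j hj => by
        have := eqT ha hb (by omega) (by omega) (h2 j hj)
        rw [Nat.add_assoc, Nat.add_assoc]
        exact this
      have e3 : s.length - n ≡ t.length - n [MOD n] := by
        have : a + (s.length - n) ≡ a + (t.length - n) [MOD n] :=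
          Nat.ModEq.trans e2 (Nat.ModEq.add_right _ (Nat.ModEq.symm e1))
        exact Nat.ModEq.add_left_cancel' a this
      have e4 := Nat.ModEq.add_right n e3
      rw [Nat.sub_add_cancel hge', Nat.sub_add_cancel hge] at e4
      exact e4

theorem con_E {n : ℕ} {T : ℕ → Fin 6} {s t : List Ltr} (hs : Readable T s) (ht : Readable T t)
    (h : Con n s t) : E n T s t := by
  rcases h with rfl | ⟨h1, h2, h3, h4, h5⟩
  · exact ⟨Or.inl rfl, Or.inl rfl⟩
  · have e1 : s.take n = t.take n := by
      apply List.ext_getElem?
      intro j
      rcases Nat.lt_or_ge j n with hj | hj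
      · rw [List.getElem?_take_of_lt hj, List.getElem?_take_of_lt hj, h3 j hj]
      · rw [List.getElem?_eq_none (by simp; omega), List.getElem?_eq_none (by simp; omega)]
    have e2 : s.drop (s.length - n) = t.drop (t.length - n) := by
      apply List.ext_getElem?
      intro j
      rw [List.getElem?_drop, List.getElem?_drop]
      rcases Nat.lt_or_ge j n with hj | hj
      · exact h4 j hj
      · rw [List.getElem?_eq_none (by omega), List.getElem?_eq_none (by omega)]
    refine ⟨Or.inr ⟨s.take n, List.take_prefix _ _, e1 ▸ List.take_prefix _ _, Or.inr (by simp; omega)⟩,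
      Or.inr (Or.inr ⟨none, s.length % n, s.drop (s.length - n), t.drop (t.length - n), ?_, ?_,
        Or.inl e2⟩)⟩
    · exact ⟨s, hs, h1, rfl, List.drop_suffix _ _, by simp; omega, Or.inl ⟨rfl, rfl⟩⟩
    · exact ⟨t, ht, h2, h5.symm, List.drop_suffix _ _, by simp; omega, Or.inl ⟨rfl, rfl⟩⟩

theorem left_part {n : ℕ} {T : ℕ → Fin 6} {s t : List Ltr} (hs0 : s ≠ []) (ht0 : t ≠ [])
    (hs : Readable T s) (ht : Readable T t)
    (h : LE n T (s ++ t ++ [(5, false)]) (t ++ s ++ [(5, false)])) (j : ℕ)
    (hj : j < min n (max s.length t.length + 1)) : (s ++ t)[j]? = (t ++ s)[j]? := by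
  have l1 := List.length_pos_iff.2 hs0
  have l2 := List.length_pos_iff.2 ht0
  rcases h with h | ⟨p, hp1, hp2, hp⟩
  · rw [List.append_cancel_right h]
  · have hlen : min n (max s.length t.length + 1) ≤ p.length := by
      rcases hp with hp | hp
      · by_contra hcon
        push Not at hcon
        have h3 : p.length ≤ s.length ∨ p.length ≤ t.length := by omega
        rcases h3 with h3 | h3
        · apply hp
          refine rd_prefix ?_ hs
          exact List.prefix_of_prefix_length_le hp1
            (by rw [List.append_assoc]; exact List.prefix_append _ _) h3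
        · apply hp
          refine rd_prefix ?_ ht
          exact List.prefix_of_prefix_length_le hp2
            (by rw [List.append_assoc]; exact List.prefix_append _ _) h3
      · omega
    obtain ⟨r, hr⟩ := hp1
    obtain ⟨r', hr'⟩ := hp2
    have e1 : (s ++ t)[j]? = p[j]? := by
      have : (s ++ t ++ [(5, false)])[j]? = (p ++ r)[j]? := by rw [hr]
      rw [List.getElem?_append_left (by simp; omega), List.getElem?_append_left (l₁ := p) (by omega)]
        at this
      exact this
    have e2 : (t ++ s)[j]? = p[j]? := by
      have : (t ++ s ++ [(5, false)])[j]? = (p ++ r')[j]? := by rw [hr']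
      rw [List.getElem?_append_left (by simp; omega), List.getElem?_append_left (l₁ := p) (by omega)]
        at this
      exact this
    rw [e1, e2]

theorem right_part {n : ℕ} {T : ℕ → Fin 6} (hT : Ty n T) {s t : List Ltr} (hs0 : s ≠ [])
    (ht0 : t ≠ []) (hs : Readable T s) (ht : Readable T t)
    (h : RE n T ((5, false) :: (s ++ t)) ((5, false) :: (t ++ s))) (j : ℕ)
    (hj : s.length + t.length ≤ j + min n (max s.length t.length + 1)) :
    (s ++ t)[j]? = (t ++ s)[j]? := by
  have l1 := List.length_pos_iff.2 hs0
  have l2 := List.length_pos_iff.2 ht0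
  have key : ∀ q : List Ltr, q <:+ ((5, false) :: (s ++ t)) → q <:+ ((5, false) :: (t ++ s)) →
      min n (max s.length t.length + 1) ≤ q.length → (s ++ t)[j]? = (t ++ s)[j]? := by
    intro q hq1 hq2 hlen
    obtain ⟨r, hr⟩ := hq1
    obtain ⟨r', hr'⟩ := hq2
    have lr : r.length + q.length = s.length + t.length + 1 := by
      have := congrArg List.length hr; simpa using this
    have lr' : r'.length + q.length = s.length + t.length + 1 := by
      have := congrArg List.length hr'; simp at this; omega
    have e1 : (s ++ t)[j]? = q[j + 1 - r.length]? := by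
      have : ((5, false) :: (s ++ t))[j + 1]? = (r ++ q)[j + 1]? := by rw [hr]
      rw [List.getElem?_append_right (l₁ := r) (by omega), List.getElem?_cons_succ] at this
      exact this
    have e2 : (t ++ s)[j]? = q[j + 1 - r.length]? := by
      have : ((5, false) :: (t ++ s))[j + 1]? = (r' ++ q)[j + 1]? := by rw [hr']
      rw [List.getElem?_append_right (l₁ := r') (by omega), List.getElem?_cons_succ] at this
      rw [this, show r'.length = r.length by omega]
    rw [e1, e2]
  rcases h with h | ⟨q, hq1, hq2, hq⟩ | ⟨h, m, z, z', hz, hz', hzz⟩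
  · rw [List.cons_injective h]
  · refine key q hq1 hq2 ?_
    by_contra hcon
    push Not at hcon
    have h3 : q.length ≤ t.length ∨ q.length ≤ s.length := by omega
    rcases h3 with h3 | h3
    · apply hq
      refine rd_suffix ?_ ht
      exact List.suffix_of_suffix_length_le hq1 ⟨(5, false) :: s, by simp⟩ h3
    · apply hq
      refine rd_suffix ?_ hs
      exact List.suffix_of_suffix_length_le hq2 ⟨(5, false) :: t, by simp⟩ h3
  · obtain ⟨v, hv, hvn, hvm, hzv, hzl, hcase⟩ := hz
    obtain ⟨v', hv', hvn', hvm', hzv', hzl', hcase'⟩ := hz'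
    have hvs : v <:+ ((5, false) :: (s ++ t)) := by
      rcases hcase with ⟨_, h⟩ | ⟨a, y, _, h, _⟩
      · rw [h]
      · rw [h]; exact ⟨y ++ [a], by simp⟩
    have hvs' : v' <:+ ((5, false) :: (t ++ s)) := by
      rcases hcase' with ⟨_, h⟩ | ⟨a, y, _, h, _⟩
      · rw [h]
      · rw [h]; exact ⟨y ++ [a], by simp⟩
    rcases hzz with rfl | ⟨hh, _⟩
    · exact key z (hzv.trans hvs) (hzv'.trans hvs') (by omega)
    · exfalso
      rcases hcase with ⟨h1, _⟩ | ⟨a, y, h1, h2, _⟩
      · rw [h1] at hh; simp at hh
      · rw [hh] at h1
        have ha : a = (5, true) := by simpa using h1.symm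
        have hmem : (5, true) ∈ ((5, false) :: (s ++ t) : List Ltr) := by
          rw [h2, ha]; simp
        simp only [List.mem_cons, List.mem_append] at hmem
        rcases hmem with h | h | h
        · simp at h
        · exact ne5 hT hs h rfl
        · exact ne5 hT ht h rfl

theorem com : S_COM := by
  intro n T hn hT s t hs0 ht0 hs ht hL hR
  apply con_E hs ht
  have hall : ∀ j, (j < min n (max s.length t.length + 1) ∨
      s.length + t.length ≤ j + min n (max s.length t.length + 1)) →
      (s ++ t)[j]? = (t ++ s)[j]? := by
    rintro j (hj | hj)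
    · exact left_part hs0 ht0 hs ht hL j hj
    · exact right_part hT hs0 ht0 hs ht hR j hj
  obtain ⟨a, ha⟩ := hs
  obtain ⟨b, hb⟩ := ht
  rcases Nat.le_total s.length t.length with h | h
  · rw [Nat.max_eq_right h] at hall
    exact core hn hT hs0 ha hb h hall
  · rw [Nat.max_eq_left h] at hall
    apply Con.symm
    refine core hn hT ht0 hb ha h ?_
    intro j hj
    exact (hall j (by omega)).symm

end Pool.Agent.X231.GRC
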